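import Pool.Agent.Helper9.FJ.Slope

/-!
The minimal slope, and the numerical part.
-/

set_option autoImplicit false
set_option linter.unusedSectionVars false

namespace Pool.Agent.Helper9.FJ

open FF Module

variable {K : Type} [Field K] [Algebra ℂ K] [IsFF ℂ K] {r : ℕ}

theorem rank_le {E : Bundle K r} {ρ : ℕ} {Λ : Matrix (Fin r) (Fin ρ) K} {d : Place ℂ K →₀ ℤ}
    (h : IsQuot E Λ d) : ρ ≤ r := by
  obtain ⟨P, -⟩ := exists_place (k := ℂ) (K := K)
  obtain ⟨S, hS, -⟩ := (h P).2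
  by_contra hcon
  push Not at hcon
  apply hS
  have h1 : ¬ Function.Injective S := fun h => by
    have := Fintype.card_le_of_injective S h
    rw [Fintype.card_fin, Fintype.card_fin] at this
    omega
  rw [Function.Injective] at h1
  push Not at h1
  obtain ⟨i, j, hij, hne⟩ := h1
  exact Matrix.det_zero_of_row_eq hne (by
    funext l
    rw [Matrix.submatrix_apply, Matrix.submatrix_apply, hij])

/-- the minimal slope is attained -/
theorem exists_slope (hr : 0 < r) (E : Bundle K r) {a : ℕ} {b : Place ℂ K →₀ ℤ} (h : Pos E a b) :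
    ∃ (ρ : ℕ) (Λ : Matrix (Fin r) (Fin ρ) K) (d : Place ℂ K →₀ ℤ) (μ : ℝ), 0 < ρ ∧
      IsQuot E Λ d ∧ μ * ρ = ddeg d ∧ ∀ (ρ : ℕ) (Λ : Matrix (Fin r) (Fin ρ) K)
        (d : Place ℂ K →₀ ℤ), 0 < ρ → IsQuot E Λ d → μ * ρ ≤ ddeg d := by
  obtain ⟨z, ⟨ρ, Λ, d, hρ, hd, hz⟩, hmin⟩ := Int.exists_least_of_bdd
    (P := fun z => ∃ (ρ : ℕ) (Λ : Matrix (Fin r) (Fin ρ) K) (d : Place ℂ K →₀ ℤ), 0 < ρ ∧
      IsQuot E Λ d ∧ z * ρ = r.factorial * ddeg d) (by
      refine ⟨-(r.factorial * |ddeg b|), ?_⟩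
      rintro z ⟨ρ, Λ, d, hρ, hd, hz⟩
      have h1 := h.2 ρ Λ d hρ hd
      have hρ' : (0 : ℤ) < ρ := by exact_mod_cast hρ
      have ha' : (1 : ℤ) ≤ a := by exact_mod_cast h.1
      have hf : (0 : ℤ) < r.factorial := by exact_mod_cast r.factorial_pos
      by_contra hcon
      push Not at hcon
      have h2 : r.factorial * (a * ddeg d + ρ * ddeg b) > 0 := mul_pos hf h1
      have h3 : r.factorial * (a * ddeg d + ρ * ddeg b) =
          ρ * (a * z + r.factorial * ddeg b) := by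
        rw [mul_add, mul_left_comm, ← hz]
        ring
      rw [h3] at h2
      have h4 : 0 < a * z + r.factorial * ddeg b := by
        by_contra h5
        push Not at h5
        have := mul_nonpos_of_nonneg_of_nonpos hρ'.le h5
        omega
      have h5 : ddeg b ≤ |ddeg b| := le_abs_self _
      have h6 : (0 : ℤ) ≤ |ddeg b| := abs_nonneg _
      have h7 : (r.factorial : ℤ) * ddeg b ≤ r.factorial * |ddeg b| :=
        mul_le_mul_of_nonneg_left h5 hf.le
      have h8 : z < 0 := by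
        have : (0 : ℤ) ≤ r.factorial * |ddeg b| := mul_nonneg hf.le h6
        omega
      have h9 : (a : ℤ) * z ≤ 1 * z := by
        rw [mul_comm (a : ℤ), mul_comm (1 : ℤ)]
        exact mul_le_mul_of_nonpos_left ha' h8.le
      omega) ⟨r.factorial * ddeg E.detDiv / r, r, 1, E.detDiv, hr, quot_one E, by
        rw [Int.ediv_mul_cancel]
        refine Dvd.dvd.mul_right ?_ _
        exact_mod_cast Nat.dvd_factorial hr le_rfl⟩
  have hf : (0 : ℝ) < r.factorial := by exact_mod_cast r.factorial_pos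
  refine ⟨ρ, Λ, d, z / r.factorial, hρ, hd, ?_, fun ρ' Λ' d' hρ' hd' => ?_⟩
  · rw [div_mul_eq_mul_div, div_eq_iff hf.ne', mul_comm (ddeg d : ℝ)]
    exact_mod_cast hz
  · have h1 := hmin (r.factorial * ddeg d' / ρ') ⟨ρ', Λ', d', hρ', hd', by
      rw [Int.ediv_mul_cancel]
      refine Dvd.dvd.mul_right ?_ _
      exact_mod_cast Nat.dvd_factorial hρ' (rank_le hd')⟩
    have h2 : r.factorial * ddeg d' / ρ' * ρ' = r.factorial * ddeg d' := by
      rw [Int.ediv_mul_cancel]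
      refine Dvd.dvd.mul_right ?_ _
      exact_mod_cast Nat.dvd_factorial hρ' (rank_le hd')
    have h3 : z * ρ' ≤ r.factorial * ddeg d' := by
      rw [← h2]
      exact mul_le_mul_of_nonneg_right h1 (by exact_mod_cast hρ'.le)
    rw [div_mul_eq_mul_div, div_le_iff₀ hf, mul_comm (ddeg d' : ℝ)]
    exact_mod_cast h3

theorem ddeg_sum {ι : Type*} (s : Finset ι) (b : ι → Place ℂ K →₀ ℤ) :
    ddeg (∑ i ∈ s, b i) = ∑ i ∈ s, ddeg (b i) := by
  classical
  induction s using Finset.induction_on with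
  | empty => rw [Finset.sum_empty, Finset.sum_empty, ddeg_zero]
  | insert a s ha ih => rw [Finset.sum_insert ha, Finset.sum_insert ha, ddeg_add, ih]

/-- the numerical inequalities -/
theorem numeric (hr : 2 ≤ r) (E : Bundle K r) {m : ℕ} (hm : r + 2 ≤ m) (a : Fin m → ℕ)
    (b : Fin m → (Place ℂ K →₀ ℤ)) (hA : ∀ i, Pos E (a i) (b i)) (k : ℕ)
    (hk : k + r = ∑ i, a i) :
    0 < k ∧ ∃ μ : ℝ, (∀ (ρ : ℕ) (Λ : Matrix (Fin r) (Fin ρ) K) (d : Place ℂ K →₀ ℤ), 0 < ρ →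
      IsQuot E Λ d → μ * ρ ≤ ddeg d) ∧
      1 < μ * k + (ddeg (E.detDiv + ∑ i, b i) : ℝ) ∧
      ∀ (Λ : Matrix (Fin r) (Fin 1) K) (δ : Place ℂ K →₀ ℤ), IsQuot E Λ δ →
        2 < k * ddeg δ + ddeg (E.detDiv + ∑ i, b i) := by
  have hm0 : 0 < m := by omega
  obtain ⟨ρ, Λ, d, μ, hρ, hd, hμ, hmin⟩ := exists_slope (by omega) E (hA ⟨0, hm0⟩)
  have hk0 : 0 < k := by
    have h1 : ∑ i : Fin m, 1 ≤ ∑ i, a i := Finset.sum_le_sum fun i _ => (hA i).1
    rw [Finset.sum_const, Finset.card_univ, Fintype.card_fin, smul_eq_mul, mul_one] at h1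
    omega
  have hρr : (ρ : ℝ) ≤ r := by exact_mod_cast rank_le hd
  have hρ0 : (0 : ℝ) < ρ := by exact_mod_cast hρ
  have hr0 : (0 : ℝ) < r := by exact_mod_cast (by omega : 0 < r)
  have hkr : (k : ℝ) + r = ∑ i, (a i : ℝ) := by exact_mod_cast hk
  have hdet : μ * r ≤ ddeg E.detDiv := hmin r 1 _ (by omega) (quot_one E)
  have hB : (ddeg (E.detDiv + ∑ i, b i) : ℝ) = ddeg E.detDiv + ∑ i, (ddeg (b i) : ℝ) := by
    rw [ddeg_add, ddeg_sum]
    push_cast
    rfl
  have hmr : (r : ℝ) + 2 ≤ m := by exact_mod_cast hm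
  have hv : ∀ i, 1 / r ≤ a i * μ + ddeg (b i) := by
    intro i
    have h1 := (hA i).2 ρ Λ d hρ hd
    have h2 : (1 : ℝ) ≤ a i * ddeg d + ρ * ddeg (b i) := by exact_mod_cast h1
    rw [← hμ] at h2
    have h3 : (1 : ℝ) ≤ ρ * (a i * μ + ddeg (b i)) := by linarith
    have h4 : 0 < (a i : ℝ) * μ + ddeg (b i) := by
      by_contra hcon
      push Not at hcon
      have := mul_nonpos_of_nonneg_of_nonpos hρ0.le hcon
      linarith
    rw [div_le_iff₀ hr0]
    have h5 := mul_le_mul_of_nonneg_right hρr h4.le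
    linarith
  refine ⟨hk0, μ, hmin, ?_, fun Λ' δ hδ => ?_⟩
  · have h1 : ∑ i : Fin m, (1 / r : ℝ) ≤ ∑ i, (a i * μ + ddeg (b i)) :=
      Finset.sum_le_sum fun i _ => hv i
    rw [Finset.sum_const, Finset.card_univ, Fintype.card_fin, nsmul_eq_mul,
      Finset.sum_add_distrib, ← Finset.sum_mul, ← hkr] at h1
    have h2 : 1 < (m : ℝ) * (1 / r) := by
      rw [mul_one_div, lt_div_iff₀ hr0]
      linarith
    rw [hB]
    linarith
  · have hδμ := hmin 1 Λ' δ Nat.one_pos hδ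
    rw [Nat.cast_one, mul_one] at hδμ
    obtain ⟨M, hM⟩ : ∃ M : ℝ, M = max 1 (1 / r + (ddeg δ - μ)) := ⟨_, rfl⟩
    have h1 : ∀ i, M ≤ a i * ddeg δ + ddeg (b i) := by
      intro i
      rw [hM]
      refine max_le ?_ ?_
      · have h2 := (hA i).2 1 Λ' δ Nat.one_pos hδ
        rw [Nat.cast_one, one_mul] at h2
        exact_mod_cast h2
      · have h2 := hv i
        have h3 : (1 : ℝ) ≤ a i := by exact_mod_cast (hA i).1
        have h4 : 1 * ((ddeg δ : ℝ) - μ) ≤ a i * (ddeg δ - μ) :=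
          mul_le_mul_of_nonneg_right h3 (by linarith)
        linarith
    have h2 : ∑ i : Fin m, M ≤ ∑ i, (a i * (ddeg δ : ℝ) + ddeg (b i)) :=
      Finset.sum_le_sum fun i _ => h1 i
    rw [Finset.sum_const, Finset.card_univ, Fintype.card_fin, nsmul_eq_mul,
      Finset.sum_add_distrib, ← Finset.sum_mul, ← hkr] at h2
    have hM1 : 1 ≤ M := hM ▸ le_max_left _ _
    have hM2 : 1 / r + (ddeg δ - μ) ≤ M := hM ▸ le_max_right _ _
    have h3 : ((r : ℝ) + 2) * M ≤ m * M := mul_le_mul_of_nonneg_right hmr (by linarith)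
    have h4 : (r : ℝ) * (1 / r + (ddeg δ - μ)) ≤ r * M := mul_le_mul_of_nonneg_left hM2 hr0.le
    have h5 : (r : ℝ) * (1 / r) = 1 := by field_simp
    have h6 : (2 : ℝ) < k * ddeg δ + ddeg (E.detDiv + ∑ i, b i) := by
      rw [hB]
      nlinarith
    exact_mod_cast h6

end Pool.Agent.Helper9.FJ
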