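import Pool.Agent.Helper9.FJ.Arcs
import Pool.Agent.Helper9.FJ.Num

/-!
Very ampleness of adjoint bundles.
-/

set_option autoImplicit false
set_option linter.unusedSectionVars false

namespace Pool.Agent.Helper9.FJ

open FF Module MvPolynomial

variable {K : Type} [Field K] [Algebra ℂ K] {r : ℕ} {P : Place ℂ K} [IsFF ℂ K]

/-- the section with the value `1` at a point -/
theorem exists_one {ξ : Fin r → ℂ} (hξ : ξ ≠ 0) : ∃ lam : Fin r → ℂ, ∑ i, lam i * ξ i = 1 := by
  classical
  obtain ⟨j, hj⟩ := Function.ne_iff.1 hξ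
  have hj' : ξ j ≠ 0 := hj
  exact ⟨Pi.single j (ξ j)⁻¹, by simp [Pi.single_apply, hj']⟩

theorem exists_sep {ξ η : Fin r → ℂ} (hξ : ξ ≠ 0) (h : ¬ ∃ c : ℂ, η = c • ξ) :
    ∃ lam : Fin r → ℂ, ∑ i, lam i * ξ i = 0 ∧ ∑ i, lam i * η i = 1 := by
  classical
  obtain ⟨j, hj⟩ := Function.ne_iff.1 hξ
  have hj' : ξ j ≠ 0 := hj
  obtain ⟨i, hi⟩ : ∃ i, η i ≠ η j / ξ j * ξ i := by
    by_contra hcon
    push Not at hcon
    exact h ⟨η j / ξ j, funext fun i => hcon i⟩
  have hd : η i - ξ i / ξ j * η j ≠ 0 := by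
    intro h0
    apply hi
    rw [sub_eq_zero.1 h0]
    ring
  refine ⟨(η i - ξ i / ξ j * η j)⁻¹ • (Pi.single i 1 - (ξ i / ξ j) • Pi.single j 1), ?_, ?_⟩
  · have h1 : ∀ l, ((η i - ξ i / ξ j * η j)⁻¹ • ((Pi.single i 1 : Fin r → ℂ) -
        (ξ i / ξ j) • (Pi.single j 1 : Fin r → ℂ))) l * ξ l =
        (η i - ξ i / ξ j * η j)⁻¹ * ((if l = i then ξ l else 0) -
          (ξ i / ξ j) * (if l = j then ξ l else 0)) := by
      intro l
      rw [Pi.smul_apply, Pi.sub_apply, Pi.smul_apply, Pi.single_apply, Pi.single_apply,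
        smul_eq_mul, smul_eq_mul]
      split_ifs <;> ring
    rw [Finset.sum_congr rfl fun l _ => h1 l, ← Finset.mul_sum, Finset.sum_sub_distrib,
      ← Finset.mul_sum, Finset.sum_ite_eq' Finset.univ i, Finset.sum_ite_eq' Finset.univ j,
      if_pos (Finset.mem_univ _), if_pos (Finset.mem_univ _), div_mul_cancel₀ _ hj', sub_self,
      mul_zero]
  · have h1 : ∀ l, ((η i - ξ i / ξ j * η j)⁻¹ • ((Pi.single i 1 : Fin r → ℂ) -
        (ξ i / ξ j) • (Pi.single j 1 : Fin r → ℂ))) l * η l =
        (η i - ξ i / ξ j * η j)⁻¹ * ((if l = i then η l else 0) -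
          (ξ i / ξ j) * (if l = j then η l else 0)) := by
      intro l
      rw [Pi.smul_apply, Pi.sub_apply, Pi.smul_apply, Pi.single_apply, Pi.single_apply,
        smul_eq_mul, smul_eq_mul]
      split_ifs <;> ring
    rw [Finset.sum_congr rfl fun l _ => h1 l, ← Finset.mul_sum, Finset.sum_sub_distrib,
      ← Finset.mul_sum, Finset.sum_ite_eq' Finset.univ i, Finset.sum_ite_eq' Finset.univ j,
      if_pos (Finset.mem_univ _), if_pos (Finset.mem_univ _), inv_mul_cancel₀ hd]

/-- the linear form on the fibre with constant coefficients -/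
noncomputable def cf (E : Bundle K r) (P : Place ℂ K) (lam : Fin r → ℂ) : MvPolynomial (Fin r) K :=
  lf (Matrix.vecMul (fun i => algebraMap ℂ K (lam i)) (E.B P))

theorem cf_hom (E : Bundle K r) (P : Place ℂ K) (lam : Fin r → ℂ) :
    (cf E P lam).IsHomogeneous 1 := lf_hom _

theorem cf_loc (E : Bundle K r) (P : Place ℂ K) (lam : Fin r → ℂ) :
    CGe P 0 (loc E P (cf E P lam)) := by
  rw [cf, loc_lf_mul]
  exact cge_lf fun i => ge_const _

theorem cf_eval (E : Bundle K r) (P : Place ℂ K) (lam : Fin r → ℂ) (y : Fin r → K) :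
    eval y (cf E P lam) = ∑ i, algebraMap ℂ K (lam i) * Matrix.mulVec (E.B P) y i := by
  rw [cf, eval_lf]
  exact (Matrix.dotProduct_mulVec _ _ _).symm

theorem mulVec_pt (E : Bundle K r) (P : Place ℂ K) (ξ : Fin r → ℂ) :
    Matrix.mulVec (E.B P) (pt E P ξ) = fun i => algebraMap ℂ K (ξ i) := by
  rw [pt, Matrix.mulVec_mulVec, Matrix.mul_nonsing_inv _ (isUnit_iff_ne_zero.2 (E.det_ne P)),
    Matrix.one_mulVec]

theorem cf_pt (E : Bundle K r) (P : Place ℂ K) (lam ξ : Fin r → ℂ) :
    eval (pt E P ξ) (cf E P lam) = algebraMap ℂ K (∑ i, lam i * ξ i) := by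
  rw [cf_eval, mulVec_pt, map_sum]
  exact Finset.sum_congr rfl fun i _ => (map_mul _ _ _).symm

theorem not_ge_zpow {t : K} (ht0 : t ≠ 0) (ht : P.ord t = 1) {n c : ℤ} (h : n < c) :
    ¬ Ge P c (t ^ n) := by
  rw [ge_iff (zpow_ne_zero _ ht0), P.ord_zpow, ht]
  omega

theorem ge_of_eval_pt {E : Bundle K r} {c : ℤ} {s : MvPolynomial (Fin r) K}
    (h : CGe P c (loc E P s)) (ξ : Fin r → ℂ) : Ge P c (eval (pt E P ξ) s) := by
  refine h.eval_loc fun j => ?_
  rw [mulVec_pt]
  exact ge_const _

/-- the derivative of a polynomial at a point -/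
noncomputable def dv (η y : Fin r → K) (s : MvPolynomial (Fin r) K) : K :=
  ∑ j, η j * eval y (pderiv j s)

theorem dv_add (η y : Fin r → K) (s s' : MvPolynomial (Fin r) K) :
    dv η y (s + s') = dv η y s + dv η y s' := by
  rw [dv, dv, dv, ← Finset.sum_add_distrib]
  refine Finset.sum_congr rfl fun j _ => ?_
  rw [map_add, map_add, mul_add]

theorem dv_mul (η y : Fin r → K) (s s' : MvPolynomial (Fin r) K) :
    dv η y (s * s') = dv η y s * eval y s' + eval y s * dv η y s' := by
  rw [dv, dv, dv, Finset.sum_mul, Finset.mul_sum, ← Finset.sum_add_distrib]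
  refine Finset.sum_congr rfl fun j _ => ?_
  rw [pderiv_mul, map_add, map_mul, map_mul]
  ring

theorem dv_C (η y : Fin r → K) (a : K) : dv η y (C a) = 0 := by
  rw [dv]
  refine Finset.sum_eq_zero fun j _ => ?_
  rw [pderiv_C, map_zero, mul_zero]

theorem dv_lf (η y v : Fin r → K) : dv η y (lf v) = eval η (lf v) := by
  rw [dv, eval_lf]
  refine Finset.sum_congr rfl fun j _ => ?_
  have h1 : pderiv j (lf v) = C (v j) := by
    rw [lf_apply, map_sum, Finset.sum_eq_single j]
    · rw [Derivation.leibniz, pderiv_C, pderiv_X_self]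
      simp
    · intro i _ hi
      rw [Derivation.leibniz, pderiv_C, pderiv_X_of_ne hi]
      simp
    · intro h
      exact absurd (Finset.mem_univ _) h
  rw [h1, eval_C, mul_comm]

theorem dv_loc {E : Bundle K r} {c : ℤ} {s : MvPolynomial (Fin r) K} (h : CGe P c (loc E P s))
    (ξ η : Fin r → ℂ) : Ge P c (dv (pt E P η) (pt E P ξ) s) := by
  have h1 := pderiv_loc E P (fun i => algebraMap ℂ K (ξ i)) (fun i => algebraMap ℂ K (η i)) s
  have h2 : dv (pt E P η) (pt E P ξ) s = _ := h1.symm
  rw [h2]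
  refine Ge.sum _ fun l _ => ?_
  have h3 := (ge_const (P := P) (η l)).mul ((h.pderiv l).eval (z := fun i => algebraMap ℂ K (ξ i))
    fun j => ge_const _)
  rwa [zero_add] at h3

/-- **Very ampleness of adjoint bundles on projective bundles over curves.** -/
theorem main (hr : 2 ≤ r) (E : Bundle K r) {W : Place ℂ K →₀ ℤ} (hW : IsCanonical W) {m : ℕ}
    (hm : r + 2 ≤ m) (a : Fin m → ℕ) (b : Fin m → (Place ℂ K →₀ ℤ))
    (hA : ∀ i, Pos E (a i) (b i)) (k : ℕ) (hk : k + r = ∑ i, a i) :
    VeryAmple E k (W + E.detDiv + ∑ i, b i) := by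
  classical
  have hr0 : 0 < r := by omega
  obtain ⟨hk0, μ, hμ, hn1, hn2⟩ := numeric hr E hm a b hA k hk
  obtain ⟨k', rfl⟩ : ∃ k', k = k' + 1 := ⟨k - 1, by omega⟩
  obtain ⟨N, hN⟩ : ∃ N, N = W + E.detDiv + ∑ i, b i := ⟨_, rfl⟩
  have hNW : ddeg N - ddeg W = ddeg (E.detDiv + ∑ i, b i) := by
    rw [hN, add_assoc, ddeg_add]
    ring
  rw [← hNW] at hn1
  rw [← hN]
  have hn1' : (1 : ℝ) < μ * (k' + 1) + (ddeg N - ddeg W) := by
    push_cast at hn1
    exact hn1
  -- the two existence statements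
  have hfib : ∀ (P0 : Place ℂ K) (G : AddSubgroup (MvPolynomial (Fin r) K)),
      (∀ (c : K) s, P0.Reg c → s ∈ G → C c * s ∈ G) →
      (∀ s, CGe P0 (1 - N P0) (loc E P0 s) → s ∈ G) → ∀ s0 : MvPolynomial (Fin r) K,
      s0.IsHomogeneous (k' + 1) → CGe P0 (-N P0) (loc E P0 s0) →
      ∃ s, IsSec E (k' + 1) N s ∧ s - s0 ∈ G := by
    intro P0 G hG hG1 s0 hs0 hs0'
    by_contra hcon
    push Not at hcon
    have h1 := fibre hr0 hW E μ hμ N P0 G hG hG1 s0 hs0 hs0' hcon
    push_cast at h1
    linarith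
  have harc : ∀ e : Place ℂ K →₀ ℤ, (∀ P, 0 ≤ e P) → ddeg e ≤ 2 →
      ∀ y : Place ℂ K → Fin r → K, (∀ P j, Ge P 0 (Matrix.mulVec (E.B P) (y P) j)) →
      (∀ P, 0 < e P → ∃ j, Matrix.mulVec (E.B P) (y P) j ≠ 0 ∧
      P.ord (Matrix.mulVec (E.B P) (y P) j) = 0) → ∀ (P0 : Place ℂ K)
      (s0 : MvPolynomial (Fin r) K), s0.IsHomogeneous (k' + 1) →
      CGe P0 (-N P0) (loc E P0 s0) →
      ∃ s, IsSec E (k' + 1) N s ∧ (∀ P, P ≠ P0 → Ge P (e P - N P) (eval (y P) s)) ∧
        Ge P0 (e P0 - N P0) (eval (y P0) (s - s0)) := by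
    intro e he he2 y hy hy1 P0 s0 hs0 hs0'
    by_contra hcon
    push Not at hcon
    obtain ⟨ρ, Λ, δ, hρ, hδ, h1 | ⟨h1, h2⟩⟩ := arcs hr0 hW E μ hμ N e he y hy hy1 P0 s0 hs0 hs0' hcon
    · have h3 : (2 : ℝ) ≤ ρ := by exact_mod_cast h1.1
      have h4 : (ddeg e : ℝ) ≤ 2 := by exact_mod_cast he2
      have h5 := h1.2
      nlinarith
    · subst h1
      have h3 := hn2 Λ δ hδ
      rw [← hNW] at h3
      push_cast at h3
      omega
  refine ⟨fun P ξ hξ => ?_, fun P Q ξ η hξ hη hPQ => ?_, fun P t ξ η ht hξ => ?_,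
    fun P ξ η hξ hη => ?_⟩
  · -- base points
    obtain ⟨lam, hlam⟩ := exists_one hξ
    obtain ⟨t, ht0, ht⟩ := P.surj
    let G : AddSubgroup (MvPolynomial (Fin r) K) :=
      { carrier := {s | Ge P (1 - N P) (eval (pt E P ξ) s)}
        zero_mem' := by
          change Ge P (1 - N P) (eval (pt E P ξ) 0)
          rw [map_zero]
          exact ge_zero
        add_mem' := by
          intro s s' hs hs'
          change Ge P (1 - N P) (eval (pt E P ξ) (s + s'))
          rw [map_add]
          exact hs.add hs'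
        neg_mem' := by
          intro s hs
          change Ge P (1 - N P) (eval (pt E P ξ) (-s))
          rw [map_neg]
          exact hs.neg }
    have hG : ∀ s, s ∈ G ↔ Ge P (1 - N P) (eval (pt E P ξ) s) := fun _ => Iff.rfl
    obtain ⟨s, hs, hsG⟩ := hfib P G (fun c s hc hs => by
      rw [hG] at hs ⊢
      rw [map_mul, eval_C]
      have hc' : Ge P 0 c := hc
      have := hc'.mul hs
      rwa [zero_add] at this) (fun s hs => ge_of_eval_pt hs ξ)
      (C (t ^ (-N P)) * cf E P lam ^ (k' + 1)) (C_mul_hom _ (by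
        have := (cf_hom E P lam).pow (k' + 1)
        rwa [one_mul] at this)) (by
        rw [loc_mul, loc_C, loc_pow]
        have h1 := (cge_C (r := r) (ge_zpow ht (-N P))).mul ((cf_loc E P lam).pow (k' + 1))
        rwa [mul_zero, add_zero] at h1)
    refine ⟨s, hs, fun hcon => ?_⟩
    rw [hG, map_sub, map_mul, eval_C, map_pow, cf_pt, hlam, map_one, one_pow, mul_one] at hsG
    have h1 := hcon.sub hsG
    rw [sub_sub_cancel] at h1
    exact not_ge_zpow ht0 ht (by omega) h1
  · -- two points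
    by_cases hne : P = Q
    · subst hne
      obtain ⟨lam, hlam0, hlam⟩ := exists_sep hξ (hPQ rfl)
      obtain ⟨t, ht0, ht⟩ := P.surj
      let G : AddSubgroup (MvPolynomial (Fin r) K) :=
        { carrier := {s | Ge P (1 - N P) (eval (pt E P ξ) s) ∧ Ge P (1 - N P) (eval (pt E P η) s)}
          zero_mem' := by
            change Ge P (1 - N P) (eval (pt E P ξ) 0) ∧ Ge P (1 - N P) (eval (pt E P η) 0)
            rw [map_zero, map_zero]
            exact ⟨ge_zero, ge_zero⟩
          add_mem' := by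
            intro s s' hs hs'
            change Ge P (1 - N P) (eval (pt E P ξ) (s + s')) ∧
              Ge P (1 - N P) (eval (pt E P η) (s + s'))
            rw [map_add, map_add]
            exact ⟨hs.1.add hs'.1, hs.2.add hs'.2⟩
          neg_mem' := by
            intro s hs
            change Ge P (1 - N P) (eval (pt E P ξ) (-s)) ∧ Ge P (1 - N P) (eval (pt E P η) (-s))
            rw [map_neg, map_neg]
            exact ⟨hs.1.neg, hs.2.neg⟩ }
      have hG : ∀ s, s ∈ G ↔ Ge P (1 - N P) (eval (pt E P ξ) s) ∧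
        Ge P (1 - N P) (eval (pt E P η) s) := fun _ => Iff.rfl
      obtain ⟨s, hs, hsG⟩ := hfib P G (fun c s hc hs => by
        rw [hG] at hs ⊢
        rw [map_mul, map_mul, eval_C, eval_C]
        have hc' : Ge P 0 c := hc
        have h1 := hc'.mul hs.1
        have h2 := hc'.mul hs.2
        rw [zero_add] at h1 h2
        exact ⟨h1, h2⟩) (fun s hs => ⟨ge_of_eval_pt hs ξ, ge_of_eval_pt hs η⟩)
        (C (t ^ (-N P)) * cf E P lam ^ (k' + 1)) (C_mul_hom _ (by
          have := (cf_hom E P lam).pow (k' + 1)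
          rwa [one_mul] at this)) (by
          rw [loc_mul, loc_C, loc_pow]
          have h1 := (cge_C (r := r) (ge_zpow ht (-N P))).mul ((cf_loc E P lam).pow (k' + 1))
          rwa [mul_zero, add_zero] at h1)
      rw [hG, map_sub, map_sub, map_mul, map_mul, eval_C, eval_C, map_pow, map_pow, cf_pt, cf_pt,
        hlam0, hlam, map_zero, zero_pow (Nat.succ_ne_zero _), mul_zero, sub_zero, map_one, one_pow,
        mul_one] at hsG
      refine ⟨s, hs, hsG.1, fun hcon => ?_⟩
      have h1 := hcon.sub hsG.2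
      rw [sub_sub_cancel] at h1
      exact not_ge_zpow ht0 ht (by omega) h1
    · obtain ⟨lam, hlam⟩ := exists_one hη
      obtain ⟨t, ht0, ht⟩ := Q.surj
      obtain ⟨e, he⟩ : ∃ e : Place ℂ K →₀ ℤ, e = Finsupp.single P 1 + Finsupp.single Q 1 :=
        ⟨_, rfl⟩
      have heP : e P = 1 := by
        rw [he, Finsupp.add_apply, Finsupp.single_eq_same, Finsupp.single_eq_of_ne hne, add_zero]
      have heQ : e Q = 1 := by
        rw [he, Finsupp.add_apply, Finsupp.single_eq_same, Finsupp.single_eq_of_ne (Ne.symm hne),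
          zero_add]
      have he' : ∀ R, R ≠ P → R ≠ Q → e R = 0 := by
        intro R h1 h2
        rw [he, Finsupp.add_apply, Finsupp.single_eq_of_ne h1, Finsupp.single_eq_of_ne h2,
          add_zero]
      obtain ⟨y, hyP, hyQ, hyR⟩ : ∃ y : Place ℂ K → Fin r → K, y P = pt E P ξ ∧ y Q = pt E Q η ∧
          ∀ R, R ≠ P → R ≠ Q → y R = 0 := by
        refine ⟨fun R => if R = P then pt E P ξ else if R = Q then pt E Q η else 0, ?_, ?_, ?_⟩
        · beta_reduce
          rw [if_pos rfl]
        · beta_reduce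
          rw [if_neg (Ne.symm hne), if_pos rfl]
        · intro R h1 h2
          beta_reduce
          rw [if_neg h1, if_neg h2]
      obtain ⟨s, hs, hsP, hsQ⟩ := harc e (fun R => by
          by_cases h1 : R = P
          · rw [h1, heP]; norm_num
          · by_cases h2 : R = Q
            · rw [h2, heQ]; norm_num
            · rw [he' R h1 h2]) (by
          rw [he, ddeg_add, ddeg_single, ddeg_single, Pool.Agent.Helper90.FJ.deg_one,
            Pool.Agent.Helper90.FJ.deg_one]
          norm_num) y (fun R j => by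
          by_cases h1 : R = P
          · rw [h1, hyP, mulVec_pt]
            exact ge_const _
          · by_cases h2 : R = Q
            · rw [h2, hyQ, mulVec_pt]
              exact ge_const _
            · rw [hyR R h1 h2, Matrix.mulVec_zero]
              exact ge_zero) (fun R hR => by
          have hR' : R = P ∨ R = Q := by
            by_contra hcon
            push Not at hcon
            rw [he' R hcon.1 hcon.2] at hR
            exact lt_irrefl _ hR
          have hcase : ∀ (R : Place ℂ K) (ζ : Fin r → ℂ), ζ ≠ 0 → y R = pt E R ζ →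
              ∃ j, Matrix.mulVec (E.B R) (y R) j ≠ 0 ∧
                R.ord (Matrix.mulVec (E.B R) (y R) j) = 0 := by
            intro R ζ hζ hyζ
            obtain ⟨j, hj⟩ := Function.ne_iff.1 hζ
            have hj' : ζ j ≠ 0 := hj
            refine ⟨j, ?_, ?_⟩
            · rw [hyζ, mulVec_pt]
              exact (map_ne_zero _).2 hj'
            · rw [hyζ, mulVec_pt]
              exact R.ord_const hj'
          rcases hR' with rfl | rfl
          · exact hcase _ ξ hξ hyP
          · exact hcase _ η hη hyQ) Q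
        (C (t ^ (-N Q)) * cf E Q lam ^ (k' + 1)) (C_mul_hom _ (by
          have := (cf_hom E Q lam).pow (k' + 1)
          rwa [one_mul] at this)) (by
          rw [loc_mul, loc_C, loc_pow]
          have h1 := (cge_C (r := r) (ge_zpow ht (-N Q))).mul ((cf_loc E Q lam).pow (k' + 1))
          rwa [mul_zero, add_zero] at h1)
      have h1 := hsP P hne
      rw [heP, hyP] at h1
      rw [heQ, hyQ, map_sub, map_mul, eval_C, map_pow, cf_pt, hlam, map_one, one_pow,
        mul_one] at hsQ
      refine ⟨s, hs, h1, fun hcon => ?_⟩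
      have h2 := hcon.sub hsQ
      rw [sub_sub_cancel] at h2
      exact not_ge_zpow ht0 ht (by omega) h2
  · -- transversal tangent vectors
    obtain ⟨lam, hlam⟩ := exists_one hξ
    have ht0 : t ≠ 0 := by
      intro h0
      rw [h0, P.ord_zero] at ht
      exact zero_ne_one ht
    obtain ⟨z, hz⟩ : ∃ z, z = pt E P ξ + t • pt E P η := ⟨_, rfl⟩
    have hBz : Matrix.mulVec (E.B P) z =
        fun i => algebraMap ℂ K (ξ i) + t * algebraMap ℂ K (η i) := by
      rw [hz, Matrix.mulVec_add, Matrix.mulVec_smul, mulVec_pt, mulVec_pt]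
      rfl
    have htge : Ge P 1 t := Or.inr ht.ge
    have hBz0 : ∀ j, Ge P 0 (Matrix.mulVec (E.B P) z j) := by
      intro j
      rw [hBz]
      have h1 := htge.mul (ge_const (P := P) (η j))
      exact (ge_const _).add (h1.mono (by norm_num))
    -- units
    have hunit : ∀ (c c' : ℂ), c ≠ 0 → algebraMap ℂ K c + t * algebraMap ℂ K c' ≠ 0 ∧
        P.ord (algebraMap ℂ K c + t * algebraMap ℂ K c') = 0 := by
      intro c c' hc
      by_cases hc' : c' = 0
      · rw [hc', map_zero, mul_zero, add_zero]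
        exact ⟨(map_ne_zero _).2 hc, P.ord_const hc⟩
      · have h1 : P.ord (t * algebraMap ℂ K c') = 1 := by
          rw [P.ord_mul ht0 ((map_ne_zero _).2 hc'), ht, P.ord_const hc', add_zero]
        have h2 := P.ord_add_eq (f := algebraMap ℂ K c) (g := t * algebraMap ℂ K c')
          ((map_ne_zero _).2 hc) (mul_ne_zero ht0 ((map_ne_zero _).2 hc')) (by
            rw [h1, P.ord_const hc]
            norm_num)
        rw [P.ord_const hc] at h2
        exact h2
    obtain ⟨u, hu⟩ : ∃ u, u = eval z (cf E P lam) := ⟨_, rfl⟩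
    have hu' : u = algebraMap ℂ K 1 + t * algebraMap ℂ K (∑ i, lam i * η i) := by
      rw [hu, cf_eval, hBz, ← hlam, map_sum, map_sum, Finset.mul_sum, ← Finset.sum_add_distrib]
      refine Finset.sum_congr rfl fun i _ => ?_
      rw [map_mul, map_mul]
      ring
    have hu0 := hunit 1 (∑ i, lam i * η i) one_ne_zero
    rw [← hu'] at hu0
    obtain ⟨e, he⟩ : ∃ e : Place ℂ K →₀ ℤ, e = Finsupp.single P 2 := ⟨_, rfl⟩
    have heP : e P = 2 := by rw [he, Finsupp.single_eq_same]
    have he' : ∀ R, R ≠ P → e R = 0 := fun R h1 => by rw [he, Finsupp.single_eq_of_ne h1]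
    obtain ⟨y, hyP, hyR⟩ : ∃ y : Place ℂ K → Fin r → K, y P = z ∧ ∀ R, R ≠ P → y R = 0 := by
      refine ⟨fun R => if R = P then z else 0, if_pos rfl, fun R h1 => if_neg h1⟩
    have hs0ev : eval z (C (t ^ (1 - N P)) * cf E P lam ^ (k' + 1)) =
        t ^ (1 - N P) * u ^ (k' + 1) := by
      rw [map_mul, eval_C, map_pow, hu]
    obtain ⟨s, hs, -, hsP⟩ := harc e (fun R => by
        by_cases h1 : R = P
        · rw [h1, heP]; norm_num
        · rw [he' R h1]) (by
        rw [he, ddeg_single, Pool.Agent.Helper90.FJ.deg_one]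
        norm_num) y (fun R j => by
        by_cases h1 : R = P
        · rw [h1, hyP]
          exact hBz0 j
        · rw [hyR R h1, Matrix.mulVec_zero]
          exact ge_zero) (fun R hR => by
        have hR' : R = P := by
          by_contra hcon
          rw [he' R hcon] at hR
          exact lt_irrefl _ hR
        obtain ⟨j, hj⟩ := Function.ne_iff.1 hξ
        refine ⟨j, ?_⟩
        rw [hR', hyP, hBz]
        exact hunit _ _ hj) P
      (C (t ^ (1 - N P)) * cf E P lam ^ (k' + 1)) (C_mul_hom _ (by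
        have := (cf_hom E P lam).pow (k' + 1)
        rwa [one_mul] at this)) (by
        rw [loc_mul, loc_C, loc_pow]
        have h1 := (cge_C (r := r) (ge_zpow ht (1 - N P))).mul ((cf_loc E P lam).pow (k' + 1))
        rw [mul_zero, add_zero] at h1
        exact h1.mono (by omega))
    rw [heP, hyP, map_sub, hs0ev] at hsP
    rw [← hz]
    have hord : P.ord (t ^ (1 - N P) * u ^ (k' + 1)) = 1 - N P := by
      rw [P.ord_mul (zpow_ne_zero _ ht0) (pow_ne_zero _ hu0.1), P.ord_zpow, ht, P.ord_pow, hu0.2]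
      ring
    refine ⟨s, hs, ?_, fun hcon => ?_⟩
    · have h1 : Ge P (1 - N P) (eval z s) := by
        have h2 := (hsP.mono (by omega : 1 - N P ≤ 2 - N P)).add
          (Or.inr hord.ge : Ge P (1 - N P) (t ^ (1 - N P) * u ^ (k' + 1)))
        rwa [sub_add_cancel] at h2
      have h0 : CGe P (-N P) (loc E P s) := hs.2 P
      have h3 := h0.eval_sub (z := fun i => algebraMap ℂ K (ξ i))
        (z' := Matrix.mulVec (E.B P) z) (fun j => ge_const _) hBz0 (fun j => by
          rw [hBz]
          have h4 : algebraMap ℂ K (ξ j) - (algebraMap ℂ K (ξ j) + t * algebraMap ℂ K (η j)) =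
            -(t * algebraMap ℂ K (η j)) := by ring
          beta_reduce
          rw [h4]
          have h5 := htge.mul (ge_const (P := P) (η j))
          rw [add_zero] at h5
          exact h5.neg)
      rw [← eval_pt, ← eval_eq_loc E P z] at h3
      have h4 := (h3.mono (by omega : 1 - N P ≤ -N P + 1)).add h1
      rwa [sub_add_cancel] at h4
    · have h1 := hcon.sub hsP
      rw [sub_sub_cancel, ge_iff (mul_ne_zero (zpow_ne_zero _ ht0) (pow_ne_zero _ hu0.1)),
        hord] at h1
      omega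
  · -- vertical tangent vectors
    obtain ⟨lam, hlam0, hlam⟩ := exists_sep hξ hη
    obtain ⟨lam', hlam'⟩ := exists_one hξ
    obtain ⟨t, ht0, ht⟩ := P.surj
    have hdv : ∀ s, ∑ j, pt E P η j * eval (pt E P ξ) (pderiv j s) =
      dv (pt E P η) (pt E P ξ) s := fun _ => rfl
    simp only [hdv]
    let G : AddSubgroup (MvPolynomial (Fin r) K) :=
      { carrier := {s | Ge P (1 - N P) (eval (pt E P ξ) s) ∧
          Ge P (1 - N P) (dv (pt E P η) (pt E P ξ) s)}
        zero_mem' := by
          change Ge P (1 - N P) (eval (pt E P ξ) 0) ∧ Ge P (1 - N P) (dv (pt E P η) (pt E P ξ) 0)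
          rw [map_zero, ← C_0, dv_C]
          exact ⟨ge_zero, ge_zero⟩
        add_mem' := by
          intro s s' hs hs'
          change Ge P (1 - N P) (eval (pt E P ξ) (s + s')) ∧
            Ge P (1 - N P) (dv (pt E P η) (pt E P ξ) (s + s'))
          rw [map_add, dv_add]
          exact ⟨hs.1.add hs'.1, hs.2.add hs'.2⟩
        neg_mem' := by
          intro s hs
          change Ge P (1 - N P) (eval (pt E P ξ) (-s)) ∧
            Ge P (1 - N P) (dv (pt E P η) (pt E P ξ) (-s))
          have h1 : -s = C (-1) * s := by rw [C_neg, C_1, neg_one_mul]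
          rw [map_neg, h1, dv_mul, dv_C, eval_C, zero_mul, zero_add, neg_one_mul]
          exact ⟨hs.1.neg, hs.2.neg⟩ }
    have hG : ∀ s, s ∈ G ↔ Ge P (1 - N P) (eval (pt E P ξ) s) ∧
      Ge P (1 - N P) (dv (pt E P η) (pt E P ξ) s) := fun _ => Iff.rfl
    obtain ⟨s, hs, hsG⟩ := hfib P G (fun c s hc hs => by
      rw [hG] at hs ⊢
      rw [map_mul, eval_C, dv_mul, dv_C, eval_C, zero_mul, zero_add]
      have hc' : Ge P 0 c := hc
      have h1 := hc'.mul hs.1
      have h2 := hc'.mul hs.2
      rw [zero_add] at h1 h2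
      exact ⟨h1, h2⟩) (fun s hs => ⟨ge_of_eval_pt hs ξ, dv_loc hs ξ η⟩)
      (C (t ^ (-N P)) * (cf E P lam' ^ k' * cf E P lam)) (C_mul_hom _ (by
        have := ((cf_hom E P lam').pow k').mul (cf_hom E P lam)
        rwa [one_mul] at this)) (by
        rw [loc_mul, loc_C, loc_mul, loc_pow]
        have h1 := (cge_C (r := r) (ge_zpow ht (-N P))).mul
          (((cf_loc E P lam').pow k').mul (cf_loc E P lam))
        rwa [mul_zero, add_zero, add_zero] at h1)
    have hdvlam : dv (pt E P η) (pt E P ξ) (cf E P lam) = 1 := by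
      rw [cf, dv_lf]
      have h1 := cf_pt E P lam η
      rw [hlam, map_one] at h1
      exact h1
    rw [hG, map_sub, map_mul, eval_C, map_mul, map_pow, cf_pt, cf_pt, hlam0, map_zero, mul_zero,
      mul_zero, sub_zero] at hsG
    refine ⟨s, hs, hsG.1, fun hcon => ?_⟩
    have h0 : dv (pt E P η) (pt E P ξ) (C (t ^ (-N P)) * (cf E P lam' ^ k' * cf E P lam)) =
        t ^ (-N P) := by
      rw [dv_mul, dv_C, eval_C, zero_mul, zero_add, dv_mul, hdvlam, cf_pt, hlam0, map_zero,
        mul_zero, zero_add, map_pow, cf_pt, hlam', map_one, one_pow, mul_one, mul_one]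
    have h1 : s - C (t ^ (-N P)) * (cf E P lam' ^ k' * cf E P lam) =
        s + C (-1) * (C (t ^ (-N P)) * (cf E P lam' ^ k' * cf E P lam)) := by
      rw [C_neg, C_1, neg_one_mul, sub_eq_add_neg]
    have h2 := hsG.2
    rw [h1, dv_add, dv_mul, dv_C, eval_C, zero_mul, zero_add, h0, neg_one_mul,
      ← sub_eq_add_neg] at h2
    have h3 := hcon.sub h2
    rw [sub_sub_cancel] at h3
    exact not_ge_zpow ht0 ht (by omega) h3

end Pool.Agent.Helper9.FJ
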