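import Pool.Agent.Helper9.FJ.Defs

/-!
Elementary properties of orders.
-/

set_option autoImplicit false

namespace Pool.Agent.Helper9.FJ

open FF Module

variable {K : Type} [Field K] [Algebra ℂ K] {P : Place ℂ K} {c c' : ℤ} {f g : K}

theorem ge_zero : Ge P c 0 := Or.inl rfl

theorem ge_iff (hf : f ≠ 0) : Ge P c f ↔ c ≤ P.ord f := by
  simp [Ge, hf]

theorem Ge.mono (hf : Ge P c f) (h : c' ≤ c) : Ge P c' f := by
  rcases hf with hf | hf
  · exact Or.inl hf
  · exact Or.inr (h.trans hf)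

theorem Ge.add (hf : Ge P c f) (hg : Ge P c g) : Ge P c (f + g) := by
  by_cases h1 : f = 0
  · rwa [h1, zero_add]
  by_cases h2 : g = 0
  · rwa [h2, add_zero]
  by_cases h3 : f + g = 0
  · exact Or.inl h3
  exact Or.inr ((le_min ((ge_iff h1).1 hf) ((ge_iff h2).1 hg)).trans (P.ord_add h1 h2 h3))

theorem Ge.neg (hf : Ge P c f) : Ge P c (-f) := by
  rcases hf with hf | hf
  · exact Or.inl (by rw [hf, neg_zero])
  · exact Or.inr (by rwa [P.ord_neg])

theorem Ge.sub (hf : Ge P c f) (hg : Ge P c g) : Ge P c (f - g) := by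
  rw [sub_eq_add_neg]
  exact hf.add hg.neg

theorem Ge.mul (hf : Ge P c f) (hg : Ge P c' g) : Ge P (c + c') (f * g) := by
  by_cases h1 : f = 0
  · exact Or.inl (by rw [h1, zero_mul])
  by_cases h2 : g = 0
  · exact Or.inl (by rw [h2, mul_zero])
  right
  rw [P.ord_mul h1 h2]
  exact add_le_add ((ge_iff h1).1 hf) ((ge_iff h2).1 hg)

theorem Ge.sum {ι : Type*} (s : Finset ι) {F : ι → K} (h : ∀ i ∈ s, Ge P c (F i)) :
    Ge P c (∑ i ∈ s, F i) := by
  classical
  induction s using Finset.induction_on with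
  | empty => exact Or.inl (Finset.sum_empty)
  | insert a s ha ih =>
    rw [Finset.sum_insert ha]
    exact (h a (Finset.mem_insert_self _ _)).add
      (ih fun i hi => h i (Finset.mem_insert_of_mem hi))

theorem ge_one : Ge P 0 (1 : K) := Or.inr (by rw [P.ord_one])

theorem ge_const (z : ℂ) : Ge P 0 (algebraMap ℂ K z) := P.reg_const z

theorem Ge.prod {ι : Type*} (s : Finset ι) {F : ι → K} {n : ι → ℤ} (h : ∀ i ∈ s, Ge P (n i) (F i)) :
    Ge P (∑ i ∈ s, n i) (∏ i ∈ s, F i) := by
  classical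
  induction s using Finset.induction_on with
  | empty => rw [Finset.sum_empty, Finset.prod_empty]; exact ge_one
  | insert a s ha ih =>
    rw [Finset.sum_insert ha, Finset.prod_insert ha]
    exact (h a (Finset.mem_insert_self _ _)).mul
      (ih fun i hi => h i (Finset.mem_insert_of_mem hi))

theorem Ge.prod0 {ι : Type*} (s : Finset ι) {F : ι → K} (h : ∀ i ∈ s, Ge P 0 (F i)) :
    Ge P 0 (∏ i ∈ s, F i) := by
  have := Ge.prod s (n := fun _ => 0) h
  rwa [Finset.sum_const_zero] at this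

theorem Ge.pow (hf : Ge P c f) (n : ℕ) : Ge P (n * c) (f ^ n) := by
  have := Ge.prod (Finset.range n) (F := fun _ => f) (n := fun _ => c) fun _ _ => hf
  rwa [Finset.prod_const, Finset.sum_const, Finset.card_range, nsmul_eq_mul] at this

theorem ge_int (n : ℤ) : Ge P 0 (n : K) := by
  have := ge_const (P := P) (n : ℂ)
  rwa [map_intCast] at this

theorem Ge.of_mul {a : K} (ha : a ≠ 0) (h : Ge P (P.ord a + c) (a * f)) : Ge P c f := by
  by_cases hf : f = 0
  · exact Or.inl hf
  rw [ge_iff (mul_ne_zero ha hf), P.ord_mul ha hf] at h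
  rw [ge_iff hf]
  omega

theorem ge_self (f : K) : Ge P (P.ord f) f := Or.inr le_rfl

theorem ord_prod {ι : Type*} (s : Finset ι) {F : ι → K} (h : ∀ i ∈ s, F i ≠ 0) :
    P.ord (∏ i ∈ s, F i) = ∑ i ∈ s, P.ord (F i) := by
  classical
  induction s using Finset.induction_on with
  | empty => rw [Finset.sum_empty, Finset.prod_empty, P.ord_one]
  | insert a s ha ih =>
    rw [Finset.sum_insert ha, Finset.prod_insert ha, P.ord_mul (h a (Finset.mem_insert_self _ _))
      (Finset.prod_ne_zero_iff.2 fun i hi => h i (Finset.mem_insert_of_mem hi)),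
      ih fun i hi => h i (Finset.mem_insert_of_mem hi)]

theorem ge_det {n : Type*} [Fintype n] [DecidableEq n] {M : Matrix n n K}
    (h : ∀ i j, Ge P 0 (M i j)) : Ge P 0 M.det := by
  rw [Matrix.det_apply']
  refine Ge.sum _ fun σ _ => ?_
  have := (ge_int (P := P) ((Equiv.Perm.sign σ : ℤˣ) : ℤ)).mul
    (Ge.prod0 Finset.univ (F := fun i => M (σ i) i) fun i _ => h _ _)
  rwa [add_zero] at this

/-- entries of order at least `a i`, row by row -/
theorem ge_det_rows {n : Type*} [Fintype n] [DecidableEq n] {M : Matrix n n K} {a : n → ℤ}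
    (h : ∀ i j, Ge P (a i) (M i j)) : Ge P (∑ i, a i) M.det := by
  rw [Matrix.det_apply']
  refine Ge.sum _ fun σ _ => ?_
  have h1 := Ge.prod Finset.univ (F := fun i => M (σ i) i) (n := fun i => a (σ i))
    fun i _ => h (σ i) i
  rw [Equiv.sum_comp σ a] at h1
  have := (ge_int (P := P) ((Equiv.Perm.sign σ : ℤˣ) : ℤ)).mul h1
  rwa [zero_add] at this

end Pool.Agent.Helper9.FJ
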