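import Pool.Agent.Helper91.LV.Lead
import Pool.Agent.Helper91.LV.Wt

/-!
A tensor without invariants has an optimal destabilising flag, and the leading part has an
invariant.
-/

set_option autoImplicit false
set_option linter.unusedSectionVars false

namespace Pool.Agent.Helper9.FJ

open Module Pool.Agent.Helper91.HM

variable {K : Type} [Field K] [Algebra ℝ K] {n N : ℕ}

theorem act_ne_zero {T : (Fin N → Fin n) → K} (hT : T ≠ 0) {G : Matrix (Fin n) (Fin n) K}
    (hG : G.det ≠ 0) : ∃ J, act G T J ≠ 0 := by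
  by_contra hcon
  push Not at hcon
  apply hT
  have h1 : act G T = 0 := funext hcon
  have h2 := act_mul G⁻¹ G T
  rw [Matrix.nonsing_inv_mul _ (isUnit_iff_ne_zero.2 hG), act_one, h1] at h2
  rw [h2]
  funext J
  simp [act]

theorem unstable (hn : 0 < n) (T : (Fin N → Fin n) → K) (hT : T ≠ 0)
    (hno : NoInv (N := fun _ : Unit => N) (fun _ : Unit => T)) :
    ∃ (G : Matrix (Fin n) (Fin n) K) (A : Fin n → ℤ) (m k : ℕ) (q : Fin n → ℕ) (κ0 : ℤ),
      G.det ≠ 0 ∧ 0 < m ∧ 0 < k ∧ (∀ j, (q j : ℤ) = κ0 + m * A j) ∧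
      (∀ J, act G T J ≠ 0 → ∑ l, A (J l) ≤ -m) ∧
      ¬ NoInv (RR (N := fun _ : Unit => N) A q k (fun _ : Unit => lead A (-m) (act G T))) := by
  classical
  obtain ⟨g0, a0, hg0, ha0, h0⟩ := hmk hn (N := fun _ : Unit => N) (fun _ : Unit => T) hno
  let 𝒮 : ∀ d : ℕ, Set (MultilinearMap K (fun _ : Fin d => (Fin n → K)) K) :=
    fam (K := K) (M := K) (N := fun _ : Unit => N) (fun _ : Unit => T)
  have h𝒮D : ∀ d, ∀ s ∈ 𝒮 d, d ≤ N := by
    rintro d s ⟨i, h, -⟩
    exact h.ge
  have hmem : form T ∈ 𝒮 N := ⟨(), rfl, fun x => rfl⟩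
  have hli : ∀ g : Matrix (Fin n) (Fin n) K, g.det ≠ 0 → LinearIndependent K (fun j => g j) ∧
      Submodule.span K (Set.range fun j => g j) = ⊤ := by
    intro g hg
    have h1 : LinearIndependent K (fun j => g j) :=
      Matrix.linearIndependent_rows_iff_isUnit.2
        ((Matrix.isUnit_iff_isUnit_det _).2 (isUnit_iff_ne_zero.2 hg))
    refine ⟨h1, ?_⟩
    apply Submodule.eq_top_of_finrank_eq
    rw [finrank_span_eq_card h1]
    simp
  have hDest1 : Dest 𝒮 (fun j => g0 j) (fun j => (a0 j : ℝ)) := by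
    refine ⟨(hli g0 hg0).1, (hli g0 hg0).2, ?_, ?_⟩
    · beta_reduce
      exact_mod_cast ha0
    · rintro d s ⟨i, h, hs⟩ J hne
      subst h
      rw [hs] at hne
      have h1 : act g0 T J ≠ 0 := by
        rw [act_eq_form]
        exact hne
      have h2 := h0 i J h1
      have h3 : ∑ k, a0 (J k) ≤ -1 := Int.le_sub_one_iff.2 h2
      beta_reduce
      exact_mod_cast h3
  obtain ⟨g, w, hg, hmin⟩ := exists_min h𝒮D hDest1
  obtain ⟨A, m, hm, hA⟩ := rational h𝒮D hg hmin
  have hmR : (0 : ℝ) < m := by exact_mod_cast hm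
  obtain ⟨G, hG⟩ : ∃ G : Matrix (Fin n) (Fin n) K, ∀ j, G j = g j := ⟨g, fun _ => rfl⟩
  have hGdet : G.det ≠ 0 := by
    have h2 : LinearIndependent K (fun j => G j) := by
      simp only [hG]
      exact hg.1
    have h1 : IsUnit G := Matrix.linearIndependent_rows_iff_isUnit.1 h2
    exact ((Matrix.isUnit_iff_isUnit_det _).1 h1).ne_zero
  have hA0 : ∑ j, A j = 0 := by
    have h1 : ((∑ j, A j : ℤ) : ℝ) = 0 := by
      push_cast
      rw [Finset.sum_congr rfl fun j _ => hA j, ← Finset.mul_sum, hg.2.2.1, mul_zero]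
    exact_mod_cast h1
  have hAw : ∀ i j, A i ≤ A j ↔ w i ≤ w j := by
    intro i j
    have h1 : (A i : ℝ) ≤ A j ↔ w i ≤ w j := by
      rw [hA, hA]
      exact mul_le_mul_iff_right₀ hmR
    rw [← h1]
    exact Int.cast_le.symm
  have hsumA : ∀ {d : ℕ} (J : Fin d → Fin n), ((∑ k, A (J k) : ℤ) : ℝ) = m * ∑ k, w (J k) := by
    intro d J
    push_cast
    rw [Finset.mul_sum]
    exact Finset.sum_congr rfl fun k _ => hA _
  have hactG : ∀ J, act G T J = form T (fun k => g (J k)) := by
    intro J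
    rw [act_eq_form]
    simp only [hG]
  have hsupp : ∀ J, act G T J ≠ 0 → ∑ l, A (J l) ≤ -m := by
    intro J hne
    rw [hactG] at hne
    have h2 := hg.2.2.2 N (form T) hmem J hne
    have h3 : ((∑ k, A (J k) : ℤ) : ℝ) ≤ ((-m : ℤ) : ℝ) := by
      rw [hsumA]
      push_cast
      nlinarith
    exact_mod_cast h3
  have hk : 0 < ∑ j, A j ^ 2 := by
    obtain ⟨J, hJ⟩ := act_ne_zero hT hGdet
    have h1 := hsupp J hJ
    refine lt_of_le_of_ne (Finset.sum_nonneg fun j _ => sq_nonneg _) fun h0 => ?_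
    have h2 : ∀ j, A j = 0 := fun j => by
      have h3 := (Finset.sum_eq_zero_iff_of_nonneg fun j _ => sq_nonneg (A j)).1 h0.symm j
        (Finset.mem_univ j)
      exact pow_eq_zero_iff (two_ne_zero) |>.1 h3
    simp only [h2, Finset.sum_const_zero] at h1
    omega
  obtain ⟨k, hkk⟩ : ∃ k : ℕ, (k : ℤ) = ∑ j, A j ^ 2 := ⟨_, Int.toNat_of_nonneg hk.le⟩
  have hk0 : 0 < k := by
    rw [← hkk] at hk
    exact_mod_cast hk
  obtain ⟨κ0, hκ0⟩ : ∃ κ0 : ℤ, κ0 = m * ∑ j, |A j| := ⟨_, rfl⟩
  obtain ⟨q, hq⟩ : ∃ q : Fin n → ℕ, ∀ j, (q j : ℤ) = κ0 + m * A j := by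
    refine ⟨fun j => (κ0 + m * A j).toNat, fun j => Int.toNat_of_nonneg ?_⟩
    rw [hκ0, ← mul_add]
    refine mul_nonneg (Int.natCast_nonneg _) ?_
    have h1 : |A j| ≤ ∑ j, |A j| := Finset.single_le_sum (f := fun j => |A j|)
      (fun i _ => abs_nonneg _) (Finset.mem_univ j)
    have h2 := neg_abs_le (A j)
    linarith
  have PI : ∀ C : Matrix (Fin n) (Fin n) K, C.det ≠ 0 → (∀ i j, C i j ≠ 0 → A i = A j) →
      ∀ v : Fin n → ℝ, ∑ j, v j = 0 → ∀ M' : ℝ,
        (∀ (_ : Unit) J, act C (lead A (-m) (act G T)) J ≠ 0 → ∑ l, v (J l) ≤ M') →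
          0 ≤ m * ∑ j, A j * v j + M' * k := by
    intro C hC hCA v hv M' hM'
    have hD := hli (C * G) (by rw [Matrix.det_mul]; exact mul_ne_zero hC hGdet)
    have hDD : Dest 𝒮 (fun j => (C * G) j) w := by
      refine hg.change hD.1 hD.2 hg.2.2.1 fun j => ?_
      have h1 : (C * G) j = ∑ l, C j l • g l := by
        funext i
        rw [Matrix.mul_apply, Finset.sum_apply]
        refine Finset.sum_congr rfl fun l _ => ?_
        rw [← hG, Pi.smul_apply, smul_eq_mul]
      rw [h1]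
      refine Submodule.sum_mem _ fun l _ => ?_
      by_cases h : C j l = 0
      · rw [h, zero_smul]
        exact Submodule.zero_mem _
      · exact Submodule.smul_mem _ _ (Submodule.subset_span
          ⟨l, (hAw j l).1 (hCA j l h).le, rfl⟩)
    have h1 := pert h𝒮D hDD hmin v hv M' (by
      rintro d t ⟨i, h, hs⟩ J hne hJ
      subst h
      rw [hs] at hne
      have h1 : act (C * G) T J ≠ 0 := by
        rw [act_eq_form]
        exact hne
      refine hM' () J ?_
      have h5 := lead_act (A := A) (w := -m) (T := act G T) (fun I hI => hsupp I hI) (g := C)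
        (fun i j h => (hCA i j h).le)
      have h6 : dg A C = C := by
        ext i j
        rw [dg_apply]
        split_ifs with h
        · rfl
        · by_contra hne'
          exact h (hCA i j (Ne.symm hne'))
      rw [h6] at h5
      rw [← h5, lead, if_pos ?_, ← act_mul]
      · exact h1
      · have h8 : ((∑ k, A (J k) : ℤ) : ℝ) = ((-m : ℤ) : ℝ) := by
          rw [hsumA, hJ]
          push_cast
          ring
        exact_mod_cast h8)
    have h2 : m * ∑ j, (A j : ℝ) * v j + M' * k = m ^ 2 * (∑ j, w j * v j + M' * ∑ j, w j ^ 2) := by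
      have h3 : (k : ℝ) = ∑ j, (A j : ℝ) ^ 2 := by exact_mod_cast hkk
      have h4 : ∑ j, (A j : ℝ) * v j = m * ∑ j, w j * v j := by
        rw [Finset.mul_sum]
        refine Finset.sum_congr rfl fun j _ => ?_
        rw [hA]
        ring
      have h5 : ∑ j, (A j : ℝ) ^ 2 = m ^ 2 * ∑ j, w j ^ 2 := by
        rw [Finset.mul_sum]
        refine Finset.sum_congr rfl fun j _ => ?_
        rw [hA]
        ring
      rw [h3, h4, h5]
      ring
    rw [h2]
    exact mul_nonneg (sq_nonneg _) h1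
  refine ⟨G, A, m, k, q, κ0, hGdet, hm, hk0, hq, hsupp, ?_⟩
  refine not_noInv (N := fun _ : Unit => N) hn _ A m hA0 q κ0 hq k hkk hk0 ?_ PI
  intro _ J hne
  by_contra h
  exact hne (if_neg h)

/-- the transformation of the values of invariants -/
theorem transf {ι : Type} {N : ι → ℕ} {Q : Type} [Fintype Q] [DecidableEq Q] (ν : Q → ι)
    {A : Fin n → ℤ} {q : Fin n → ℕ} (hq : ∀ i j, A i = A j → q i = q j) (k : ℕ)
    (T : ∀ i, (Fin (N i) → Fin n) → K)
    {p : ((Σ x, Fin (Fintype.card (IR N q k (ν x)))) → Fin n) → ℝ} (hp : SLInv p) {m : ℕ}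
    (hm : ∀ I', p I' ≠ 0 → ∀ i, (Finset.univ.filter fun k => I' k = i).card = m)
    {g : Matrix (Fin n) (Fin n) K} (hg : ∀ i j, g i j ≠ 0 → A i = A j) :
    (chi A q g) ^ Fintype.card Q * ∑ I, algebraMap ℝ K (p I) *
        wordT (RR A q k (fun i => act g (T i))) ν I =
      g.det ^ m * ∑ I, algebraMap ℝ K (p I) * wordT (RR A q k T) ν I := by
  classical
  have h1 : ∀ I, (chi A q g) ^ Fintype.card Q * wordT (RR A q k (fun i => act g (T i))) ν I =
      act g (wordT (RR A q k T) ν) I := by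
    intro I
    rw [act_word, wordT]
    have h2 : ∀ x, act g (RR A q k T (ν x)) (fun l => I ⟨x, l⟩) = chi A q g *
        RR A q k (fun i => act g (T i)) (ν x) (fun l => I ⟨x, l⟩) := fun x =>
      act_RR hq k T (ν x) hg _
    simp only [h2]
    rw [Finset.prod_mul_distrib, Finset.prod_const, Finset.card_univ]
  have h3 : ∀ I, (chi A q g) ^ Fintype.card Q * (algebraMap ℝ K (p I) *
        wordT (RR A q k (fun i => act g (T i))) ν I) =
        algebraMap ℝ K (p I) * act g (wordT (RR A q k T) ν) I := by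
    intro I
    rw [← h1]
    ring
  rw [Finset.mul_sum, Finset.sum_congr rfl fun I _ => h3 I, Finset.mul_sum]
  simp only [act, Finset.mul_sum]
  rw [Finset.sum_comm]
  refine Finset.sum_congr rfl fun I _ => ?_
  have h6 := hp.semi hm g I
  rw [← mul_assoc, ← h6, Finset.sum_mul]
  exact Finset.sum_congr rfl fun J _ => (mul_assoc _ _ _).symm

/-- the determinants of triangular matrices -/
theorem det_tri {R m : Type*} [CommRing R] [Fintype m] [DecidableEq m] {C : Matrix m m R}
    {lab : m → ℕ} (hlab : Function.Injective lab) (hC : ∀ i j, C i j ≠ 0 → lab j ≤ lab i) :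
    C.det = ∏ i, C i i := by
  rw [Matrix.det_apply, Finset.sum_eq_single 1]
  · simp
  · intro σ _ hσ
    have h1 : ∏ i, C (σ i) i = 0 := by
      by_contra hne
      apply hσ
      have hne' : ∀ i, C (σ i) i ≠ 0 := fun i h0 =>
        hne (Finset.prod_eq_zero (Finset.mem_univ i) h0)
      have h2 : ∀ i, lab i ≤ lab (σ i) := fun i => hC _ _ (hne' i)
      have h3 : ∑ i, lab i = ∑ i, lab (σ i) := (Equiv.sum_comp σ lab).symm
      have h4 := (Finset.sum_eq_sum_iff_of_le fun i _ => h2 i).1 h3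
      ext i
      rw [Equiv.Perm.one_apply]
      exact (hlab (h4 i (Finset.mem_univ i))).symm
    rw [h1, smul_zero]
  · intro h
    exact absurd (Finset.mem_univ _) h

theorem chi_tri {R : Type} [CommRing R] {A : Fin n → ℤ} {q : Fin n → ℕ}
    {C : Matrix (Fin n) (Fin n) R}
    {lab : Fin n → ℕ} (hlab : Function.Injective lab) (hC : ∀ i j, C i j ≠ 0 → lab j ≤ lab i) :
    chi A q C = ∏ j, C j j ^ q j := by
  classical
  obtain ⟨B, hB⟩ : ∃ B, B = ∑ j, q j + 1 := ⟨_, rfl⟩
  have hqB : ∀ j, q j < B := by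
    intro j
    rw [hB]
    exact Nat.lt_succ_of_le (Finset.single_le_sum (f := q) (fun _ _ => Nat.zero_le _)
      (Finset.mem_univ j))
  rw [chi, det_tri (lab := fun x : P0 q => B * lab x.1 + x.2)]
  · simp only [Matrix.of_apply, if_true, and_self]
    have h1 := Fintype.prod_sigma (fun x : P0 q => C x.1 x.1)
    rw [h1]
    refine Finset.prod_congr rfl fun j _ => ?_
    have h2 : ∏ y : Fin (q j), C (⟨j, y⟩ : P0 q).1 (⟨j, y⟩ : P0 q).1 =
      ∏ _y : Fin (q j), C j j := rfl
    rw [h2, Finset.prod_const, Finset.card_univ, Fintype.card_fin]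
  · intro x y hxy
    have hx : (x.2 : ℕ) < B := x.2.2.trans (hqB _)
    have hy : (y.2 : ℕ) < B := y.2.2.trans (hqB _)
    have hxy' : B * lab x.1 + x.2 = B * lab y.1 + y.2 := hxy
    have h1 : lab x.1 = lab y.1 := by
      rcases lt_trichotomy (lab x.1) (lab y.1) with h | h | h
      · exfalso
        have h2 : B * (lab x.1 + 1) ≤ B * lab y.1 := Nat.mul_le_mul_left _ h
        rw [mul_add, mul_one] at h2
        omega
      · exact h
      · exfalso
        have h2 : B * (lab y.1 + 1) ≤ B * lab x.1 := Nat.mul_le_mul_left _ h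
        rw [mul_add, mul_one] at h2
        omega
    rw [h1] at hxy'
    exact P0_ext (hlab h1) (by omega)
  · intro x y hne
    rw [Matrix.of_apply] at hne
    have h1 : ((x.2 : ℕ) = y.2 ∧ A x.1 = A y.1) := by
      by_contra h
      exact hne (if_neg h)
    rw [if_pos h1] at hne
    have h2 := Nat.mul_le_mul_left B (hC _ _ hne)
    beta_reduce
    omega

end Pool.Agent.Helper9.FJ
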