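import Pool.Agent.Helper9.FJ.Lat
import Pool.Agent.Helper9.FJ.SlopeAlg

/-!
The slope inequality for multilinear forms.
-/

set_option autoImplicit false
set_option linter.unusedSectionVars false

namespace Pool.Agent.Helper9.FJ

open FF Module Pool.Agent.Helper91.HM

variable {K : Type} [Field K] [Algebra ℂ K] {r : ℕ}

/-- the sum over the layers -/
theorem layers {n : ℕ} (e : Fin n → ℕ) (a : Fin n → ℤ) {M : ℕ} (hM : ∀ j, e j ≤ M) :
    ∑ j, (e j : ℤ) * a j = ∑ τ ∈ Finset.range M, ∑ j ∈ Finset.univ.filter (fun j => τ < e j), a j := by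
  classical
  simp only [Finset.sum_filter]
  rw [Finset.sum_comm]
  refine Finset.sum_congr rfl fun j _ => ?_
  rw [← Finset.sum_filter]
  have h1 : (Finset.range M).filter (fun τ => τ < e j) = Finset.range (e j) := by
    ext τ
    simp only [Finset.mem_filter, Finset.mem_range]
    have := hM j
    omega
  rw [h1, Finset.sum_const, Finset.card_range, nsmul_eq_mul]

theorem inv_act [Algebra ℝ K] {n : ℕ} {Q : Type} [Fintype Q] [DecidableEq Q]
    {p : (Q → Fin n) → ℝ} (hp : SLInv p) {m : ℕ}
    (hm : ∀ I', p I' ≠ 0 → ∀ i, (Finset.univ.filter fun k => I' k = i).card = m)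
    (g : Matrix (Fin n) (Fin n) K) (T : (Q → Fin n) → K) :
    ∑ I, algebraMap ℝ K (p I) * act g T I = g.det ^ m * ∑ I, algebraMap ℝ K (p I) * T I := by
  rw [Finset.mul_sum]
  simp only [act, Finset.mul_sum]
  rw [Finset.sum_comm]
  refine Finset.sum_congr rfl fun I _ => ?_
  have h6 := hp.semi hm g I
  rw [← mul_assoc, ← h6, Finset.sum_mul]
  exact Finset.sum_congr rfl fun J _ => (mul_assoc _ _ _).symm

theorem ge_real [Algebra ℝ K] [IsScalarTower ℝ ℂ K] {P : Place ℂ K} (x : ℝ) :
    Ge P 0 (algebraMap ℝ K x) := by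
  rw [IsScalarTower.algebraMap_apply ℝ ℂ K]
  exact ge_const _

theorem ge_D0 {P : Place ℂ K} {n : ℕ} (A : Fin n → ℤ) (q : Fin n → ℕ) (I : P0 q → Fin n) :
    Ge P 0 (D0 K A q I) := by
  rw [D0]
  refine ge_det fun x y => ?_
  rw [Matrix.of_apply]
  split_ifs
  · exact ge_one
  · exact ge_zero

theorem coords_eq {N : ℕ} (T : MultilinearMap K (fun _ : Fin N => Fin r → K) K)
    (g : Matrix (Fin r) (Fin r) K) (J : Fin N → Fin r) :
    act g (fun I : Fin N → Fin r => T (fun k => Pi.single (I k) 1)) J = T (fun k => g (J k)) := by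
  classical
  have h1 : (fun k => g (J k)) = fun k => ∑ i, g (J k) i • (Pi.single i 1 : Fin r → K) := by
    funext k
    exact pi_eq_sum_univ' _
  rw [h1, MultilinearMap.map_sum, act]
  refine Finset.sum_congr rfl fun I _ => ?_
  exact (T.map_smul_univ (fun k => g (J k) (I k)) (fun k => Pi.single (I k) 1)).symm

/-- the orders of the minors of an adapted basis -/
theorem minor_le {n : ℕ} {E : Bundle K n} {G : Matrix (Fin n) (Fin n) K} {P : Place ℂ K} {C X : Matrix (Fin n) (Fin n) K} (hX : ∀ i j, Ge P 0 (X i j))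
    (hXC : E.B P * G⁻¹ = X * C) {lab : Fin n → ℕ} (hlab : Function.Injective lab)
    (hC : ∀ i j, C i j ≠ 0 → lab j ≤ lab i) (hC0 : ∀ j, C j j ≠ 0) {ρ : ℕ} (f : Fin ρ → Fin n)
    (hf : Function.Injective f) (hf' : ∀ l i, lab (f i) ≤ lab l → ∃ i', f i' = l)
    {d : Place ℂ K →₀ ℤ} (hd : IsQuot E (G⁻¹.submatrix id f) d) :
    ∑ i, P.ord (C (f i) (f i)) ≤ -d P := by
  classical
  obtain ⟨S, hS, hSd⟩ := (hd P).2
  have h1 : (E.B P * G⁻¹.submatrix id f).submatrix S id = X.submatrix S f * C.submatrix f f := by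
    ext i j
    have h2 : (E.B P * G⁻¹.submatrix id f) (S i) j = (E.B P * G⁻¹) (S i) (f j) := by
      rw [Matrix.mul_apply, Matrix.mul_apply]
      rfl
    rw [Matrix.submatrix_apply, id, h2, hXC, Matrix.mul_apply, Matrix.mul_apply]
    have h3 : ∑ l, X (S i) l * C l (f j) = ∑ l ∈ Finset.univ.map ⟨f, hf⟩, X (S i) l * C l (f j) := by
      symm
      refine Finset.sum_subset (Finset.subset_univ _) fun l _ hl => ?_
      by_contra hne
      apply hl
      obtain ⟨i', hi'⟩ := hf' l j (hC _ _ (right_ne_zero_of_mul hne))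
      exact Finset.mem_map.2 ⟨i', Finset.mem_univ _, hi'⟩
    rw [h3, Finset.sum_map]
    rfl
  have h2 : (C.submatrix f f).det = ∏ i, C (f i) (f i) :=
    det_tri (lab := fun i => lab (f i)) (hlab.comp hf) fun i j h => hC _ _ h
  have h3 : ((E.B P * G⁻¹.submatrix id f).submatrix S id).det =
      (X.submatrix S f).det * ∏ i, C (f i) (f i) := by
    rw [h1, Matrix.det_mul, h2]
  have h4 : (X.submatrix S f).det ≠ 0 := by
    intro h0
    rw [h3, h0, zero_mul] at hS
    exact hS rfl
  have h5 : 0 ≤ P.ord (X.submatrix S f).det := (ge_iff h4).1 (ge_det fun i j => hX _ _)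
  rw [h3, P.ord_mul h4 (Finset.prod_ne_zero_iff.2 fun i _ => hC0 _),
    ord_prod _ fun i _ => hC0 _] at hSd
  omega

variable [IsFF ℂ K]

theorem quot_zero (E : Bundle K r) {Λ : Matrix (Fin r) (Fin 0) K} {d : Place ℂ K →₀ ℤ}
    (hd : IsQuot E Λ d) : d = 0 := by
  ext P
  obtain ⟨S, hS, hSd⟩ := (hd P).2
  rw [Matrix.det_isEmpty, P.ord_one] at hSd
  rw [Finsupp.zero_apply]
  omega

theorem quot_one (E : Bundle K r) : IsQuot E (1 : Matrix (Fin r) (Fin r) K) E.detDiv := by
  intro P
  have h0 : -E.detDiv P = P.ord (E.B P).det := neg_neg _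
  rw [h0, Matrix.mul_one]
  refine ⟨fun S => ?_, id, E.det_ne P, rfl⟩
  by_cases h : Function.Injective S
  · have h1 : Function.Bijective S := Finite.injective_iff_bijective.1 h
    have h2 : ((E.B P).submatrix S id).det = Equiv.Perm.sign (Equiv.ofBijective S h1) *
        (E.B P).det := Matrix.det_permute (Equiv.ofBijective S h1) (E.B P)
    rw [h2]
    have := (ge_int (P := P) ((Equiv.Perm.sign (Equiv.ofBijective S h1) : ℤˣ) : ℤ)).mul
      (ge_self (P := P) (E.B P).det)
    rwa [zero_add] at this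
  · rw [Function.Injective] at h
    push Not at h
    obtain ⟨i, j, hij, hne⟩ := h
    left
    exact Matrix.det_zero_of_row_eq hne (by
      funext l
      rw [Matrix.submatrix_apply, Matrix.submatrix_apply, hij])

/-- **Slopes of tensor powers** (characteristic zero): if all quotient bundles of `E` have slope at
least `μ`, then all nonzero maps of the `N`-th tensor power of `E` to line bundles go to line bundles
of degree at least `N μ`. -/
theorem slope {N : ℕ} (hr : 0 < r) (E : Bundle K r) (μ : ℝ)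
    (hμ : ∀ (ρ : ℕ) (Λ : Matrix (Fin r) (Fin ρ) K) (d : Place ℂ K →₀ ℤ), 0 < ρ → IsQuot E Λ d →
      μ * ρ ≤ ddeg d)
    (T : MultilinearMap K (fun _ : Fin N => Fin r → K) K) (hT : T ≠ 0) (c : Place ℂ K →₀ ℤ)
    (hc : ∀ P, ∀ J : Fin N → Fin r, Ge P (-c P) (T (fun k => E.B P (J k)))) :
    μ * N ≤ ddeg c := by
  classical
  let _ : Algebra ℝ K := Algebra.compHom K (algebraMap ℝ ℂ)
  have _ : IsScalarTower ℝ ℂ K := IsScalarTower.of_algebraMap_eq fun _ => rfl
  obtain ⟨T0, hT0⟩ : ∃ T0 : (Fin N → Fin r) → K, T0 = fun I => T (fun k => Pi.single (I k) 1) :=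
    ⟨_, rfl⟩
  have hact : ∀ (g : Matrix (Fin r) (Fin r) K) (J : Fin N → Fin r),
      act g T0 J = T (fun k => g (J k)) := fun g J => by rw [hT0, coords_eq]
  have hT0' : T0 ≠ 0 := by
    intro h0
    apply hT
    refine MultilinearMap.ext fun x => ?_
    have h1 : x = fun k => ∑ i, x k i • (Pi.single i 1 : Fin r → K) := by
      funext k
      exact pi_eq_sum_univ' _
    rw [h1, MultilinearMap.map_sum, zero_apply]
    refine Finset.sum_eq_zero fun I _ => ?_
    have h2 := T.map_smul_univ (fun k => x k (I k)) (fun k => Pi.single (I k) 1)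
    have h3 : T (fun k => Pi.single (I k) 1) = 0 := by
      rw [hT0] at h0
      exact congrFun h0 I
    rw [h3, smul_zero] at h2
    exact h2
  by_cases hno : NoInv (N := fun _ : Unit => N) (fun _ : Unit => T0)
  · obtain ⟨G, A, m, k, q, κ0, hG, hm, hk, hq, hsupp, hno'⟩ := unstable hr T0 hT0' hno
    obtain ⟨T1, hT1⟩ : ∃ T1 : (C : Matrix (Fin r) (Fin r) K) → (Fin N → Fin r) → K,
      ∀ C, T1 C = lead A (-m) (act C (act G T0)) := ⟨_, fun _ => rfl⟩
    have hT11 : T1 1 = lead A (-m) (act G T0) := by rw [hT1, act_one]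
    rw [← hT11, NoInv] at hno'
    push Not at hno'
    obtain ⟨Q, hQf, hQd, hQn, ν, p, hp, hne⟩ := hno'
    obtain ⟨I0, -, hI0⟩ := Finset.exists_ne_zero_of_sum_ne_zero hne
    have hpI0 : p I0 ≠ 0 := fun h => hI0 (by rw [h, map_zero, zero_mul])
    have hwI0 := right_ne_zero_of_mul hI0
    obtain ⟨m', hcard, hm'⟩ := hp.exists_m hr hpI0
    obtain ⟨q0⟩ : Nonempty Q := hQn
    have hQ0 : 0 < Fintype.card Q := Fintype.card_pos_iff.2 ⟨q0⟩
    have hqA : ∀ i j, A i = A j → q i = q j := by
      intro i j hij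
      have h1 := hq i
      have h2 := hq j
      rw [hij, ← h2] at h1
      exact_mod_cast h1
    -- the exponents
    obtain ⟨e, he⟩ : ∃ e : Fin r → ℕ, ∀ j, e j = ∑ x : Q, ∑ y : Fin k, ∑ l : Fin N,
        if I0 ⟨x, Fintype.equivFin (IR (fun _ : Unit => N) q k (ν x)) (Sum.inl ⟨y, l⟩)⟩ = j
          then 1 else 0 := ⟨_, fun _ => rfl⟩
    have hem : ∀ j, m' = e j + Fintype.card Q * q j := by
      intro j
      rw [← hm' I0 hpI0 j, Finset.card_filter, Fintype.sum_sigma, he]
      have h1 : ∀ x : Q, ∑ z, (if I0 ⟨x, z⟩ = j then 1 else 0) = ∑ y : Fin k, ∑ l : Fin N,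
          (if I0 ⟨x, Fintype.equivFin (IR (fun _ : Unit => N) q k (ν x)) (Sum.inl ⟨y, l⟩)⟩ = j
            then 1 else 0) + q j := by
        intro x
        rw [sum_IR (N := fun _ : Unit => N) q k (ν x) (fun z => if I0 ⟨x, z⟩ = j then 1 else 0)]
        congr 1
        have h2 : D0 K A q (fun z => I0 ⟨x, Fintype.equivFin (IR (fun _ : Unit => N) q k (ν x))
            (Sum.inr z)⟩) ≠ 0 := by
          rw [wordT, Finset.prod_ne_zero_iff] at hwI0
          exact right_ne_zero_of_mul (hwI0 x (Finset.mem_univ x))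
        have h3 := sum_D0 h2 (fun i => if i = j then 1 else 0)
        rw [h3]
        simp
      rw [Finset.sum_congr rfl fun x _ => h1 x, Finset.sum_add_distrib, Finset.sum_const,
        Finset.card_univ, smul_eq_mul]
    have hesum : ∑ j, e j = Fintype.card Q * k * N := by
      simp only [he]
      rw [Finset.sum_comm]
      have h1 : ∀ x : Q, ∑ j : Fin r, ∑ y : Fin k, ∑ l : Fin N,
          (if I0 ⟨x, Fintype.equivFin (IR (fun _ : Unit => N) q k (ν x)) (Sum.inl ⟨y, l⟩)⟩ = j
            then 1 else 0) = k * N := by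
        intro x
        rw [Finset.sum_comm]
        have h2 : ∀ y : Fin k, ∑ j : Fin r, ∑ l : Fin N,
          (if I0 ⟨x, Fintype.equivFin (IR (fun _ : Unit => N) q k (ν x)) (Sum.inl ⟨y, l⟩)⟩ = j
            then 1 else 0) = N := by
          intro y
          rw [Finset.sum_comm]
          simp
        rw [Finset.sum_congr rfl fun y _ => h2 y]
        simp
      rw [Finset.sum_congr rfl fun x _ => h1 x]
      simp [mul_assoc]
    have heA : ∀ i j, e j ≤ e i → A i ≤ A j := by
      intro i j hij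
      have h1 := hem i
      have h2 := hem j
      have h3 : Fintype.card Q * q i ≤ Fintype.card Q * q j := by omega
      have h4 := Nat.le_of_mul_le_mul_left h3 hQ0
      have h5 : κ0 + m * A i ≤ κ0 + m * A j := by
        rw [← hq, ← hq]
        exact_mod_cast h4
      have h6 : (m : ℤ) * A i ≤ m * A j := by linarith
      exact le_of_mul_le_mul_left h6 (by exact_mod_cast hm)
    obtain ⟨lab, hlabdef⟩ : ∃ lab : Fin r → ℕ, ∀ j, lab j = r * e j + j := ⟨_, fun _ => rfl⟩
    have hlabe : ∀ i j, lab j ≤ lab i → e j ≤ e i := by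
      intro i j h
      rw [hlabdef, hlabdef] at h
      by_contra hcon
      push Not at hcon
      have h1 : r * (e i + 1) ≤ r * e j := Nat.mul_le_mul_left _ hcon
      rw [mul_add, mul_one] at h1
      have := i.2
      omega
    have hlab : Function.Injective lab := by
      intro i j h
      have h1 := hlabe i j h.ge
      have h2 := hlabe j i h.le
      rw [hlabdef, hlabdef, le_antisymm h1 h2] at h
      exact Fin.ext (by omega)
    -- the quotients
    obtain ⟨f, hf⟩ : ∃ f : (τ : ℕ) → Fin (Finset.univ.filter fun j => τ < e j).card ↪o Fin r,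
      ∀ τ, f τ = (Finset.univ.filter fun j => τ < e j).orderEmbOfFin rfl := ⟨_, fun _ => rfl⟩
    have hfr : ∀ τ l, τ < e l → ∃ i, f τ i = l := by
      intro τ l hl
      have h1 := Finset.range_orderEmbOfFin (Finset.univ.filter fun j => τ < e j) rfl
      have h2 : l ∈ Set.range ((Finset.univ.filter fun j => τ < e j).orderEmbOfFin rfl) := by
        rw [h1]
        simpa using hl
      rw [hf]
      exact h2
    have hfe : ∀ τ i, τ < e (f τ i) := by
      intro τ i
      have h1 := Finset.orderEmbOfFin_mem (Finset.univ.filter fun j => τ < e j) rfl i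
      rw [hf]
      exact (Finset.mem_filter.1 h1).2
    have hfsum : ∀ (τ : ℕ) (a : Fin r → ℤ), ∑ i, a (f τ i) =
        ∑ j ∈ Finset.univ.filter (fun j => τ < e j), a j := by
      intro τ a
      have h1 := Finset.map_orderEmbOfFin_univ (Finset.univ.filter fun j => τ < e j) rfl
      conv_rhs => rw [← h1]
      rw [Finset.sum_map, hf]
      rfl
    have hquot : ∀ τ, ∃ d, IsQuot E (G⁻¹.submatrix id (f τ)) d := by
      intro τ
      refine exists_quot E (Y := G.submatrix (f τ) id) ?_
      have h1 : G.submatrix (f τ) id * G⁻¹.submatrix id (f τ) = (G * G⁻¹).submatrix (f τ) (f τ) := by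
        ext i j
        rw [Matrix.mul_apply, Matrix.submatrix_apply, Matrix.mul_apply]
        rfl
      rw [h1, Matrix.mul_nonsing_inv _ (isUnit_iff_ne_zero.2 hG),
        Matrix.submatrix_one _ (f τ).injective]
    choose d hd using hquot
    obtain ⟨ω, hω⟩ : ∃ ω : Matrix (Fin r) (Fin r) K → K, ∀ C, ω C = ∑ I, algebraMap ℝ K (p I) *
      wordT (RR (N := fun _ : Unit => N) A q k (fun _ : Unit => T1 C)) ν I := ⟨_, fun _ => rfl⟩
    rw [← hω] at hne
    obtain ⟨M, hM⟩ : ∃ M : ℕ, ∀ j, e j ≤ M :=
      ⟨Finset.univ.sup e, fun j => Finset.le_sup (Finset.mem_univ j)⟩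
    have hmain : ∀ P, -(Fintype.card Q * (k * c P)) ≤
        -∑ τ ∈ Finset.range M, d τ P + P.ord (ω 1) := by
      intro P
      have hBG : (E.B P * G⁻¹).det ≠ 0 := by
        rw [Matrix.det_mul, Matrix.det_nonsing_inv, Ring.inverse_eq_inv']
        exact mul_ne_zero (E.det_ne P) (inv_ne_zero hG)
      obtain ⟨C, U, X, hU, hX, hCU, hXC, hC⟩ := hermite P hBG hlab
      have hdet : C.det ≠ 0 := by
        intro h0
        rw [hXC, Matrix.det_mul, h0, mul_zero] at hBG
        exact hBG rfl
      have hdetC : C.det = ∏ j, C j j := det_tri hlab hC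
      have hC0 : ∀ j, C j j ≠ 0 := by
        rw [hdetC] at hdet
        exact fun j => Finset.prod_ne_zero_iff.1 hdet j (Finset.mem_univ j)
      have hCA : ∀ i j, C i j ≠ 0 → A i ≤ A j := fun i j h => heA _ _ (hlabe _ _ (hC i j h))
      have hchi : chi A q C = ∏ j, C j j ^ q j := chi_tri hlab hC
      have hchi0 : chi A q C ≠ 0 := by
        rw [hchi]
        exact Finset.prod_ne_zero_iff.2 fun j _ => pow_ne_zero _ (hC0 j)
      -- the value at `C`
      have h1 := transf (N := fun _ : Unit => N) ν hqA k (fun _ : Unit => T1 1) hp hm'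
        (g := dg A C) fun i j h => dg_ne h
      have h2 : act (dg A C) (T1 1) = T1 C := by
        rw [hT11, hT1, lead_act hsupp hCA]
      rw [chi_dg, det_dg hCA, h2, ← hω, ← hω] at h1
      -- the order of the values
      have hCG : C * G = U * E.B P := by
        rw [hCU, Matrix.mul_assoc, Matrix.mul_assoc, Matrix.nonsing_inv_mul _
          (isUnit_iff_ne_zero.2 hG), Matrix.mul_one]
      have h3 : ∀ J, Ge P (-c P) (T1 C J) := by
        intro J
        rw [hT1, lead]
        split_ifs
        · rw [← act_mul, hCG, act_mul, act]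
          refine Ge.sum _ fun I _ => ?_
          have h4 := (Ge.prod0 (P := P) Finset.univ (F := fun k => U (J k) (I k)) fun k _ =>
            hU _ _).mul (hc P I)
          rw [zero_add, ← hact] at h4
          exact h4
        · exact ge_zero
      have h4 : Ge P (-(Fintype.card Q * (k * c P))) (ω C) := by
        rw [hω]
        refine Ge.sum _ fun I _ => ?_
        have h5 : ∀ x, Ge P (-(k * c P)) (RR (N := fun _ : Unit => N) A q k
            (fun _ : Unit => T1 C) (ν x) (fun l => I ⟨x, l⟩)) := by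
          intro x
          rw [RR]
          have h6 := (Ge.prod Finset.univ (F := fun y : Fin k => T1 C (fun l =>
            I ⟨x, Fintype.equivFin (IR (fun _ : Unit => N) q k (ν x)) (Sum.inl ⟨y, l⟩)⟩))
            (n := fun _ => -c P) fun y _ => h3 _).mul (ge_D0 (P := P) A q (fun z =>
              I ⟨x, Fintype.equivFin (IR (fun _ : Unit => N) q k (ν x)) (Sum.inr z)⟩))
          rw [Finset.sum_const, Finset.card_univ, Fintype.card_fin, add_zero, nsmul_eq_mul,
            mul_neg] at h6
          exact h6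
        have h7 := (ge_real (P := P) (p I)).mul (Ge.prod Finset.univ fun x _ => h5 x)
        rw [Finset.sum_const, Finset.card_univ, zero_add, nsmul_eq_mul, mul_neg] at h7
        exact h7
      have hωC : ω C ≠ 0 := by
        intro h0
        rw [h0, mul_zero] at h1
        exact mul_ne_zero (pow_ne_zero _ hdet) hne h1.symm
      have h5 := congrArg P.ord h1
      rw [P.ord_mul (pow_ne_zero _ hchi0) hωC, P.ord_mul (pow_ne_zero _ hdet) hne, P.ord_pow,
        P.ord_pow, hchi, hdetC, ord_prod _ fun j _ => pow_ne_zero _ (hC0 j),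
        ord_prod _ fun j _ => hC0 j, Finset.sum_congr rfl fun j _ => P.ord_pow (C j j) (q j)] at h5
      rw [ge_iff hωC] at h4
      have h6 : (m' : ℤ) * ∑ j, P.ord (C j j) - Fintype.card Q * ∑ j, (q j : ℤ) * P.ord (C j j) =
          ∑ j, (e j : ℤ) * P.ord (C j j) := by
        rw [Finset.mul_sum, Finset.mul_sum, ← Finset.sum_sub_distrib]
        refine Finset.sum_congr rfl fun j _ => ?_
        have h7 : (m' : ℤ) = e j + Fintype.card Q * q j := by exact_mod_cast hem j
        rw [h7]
        ring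
      have h7 := layers e (fun j => P.ord (C j j)) hM
      have h8 : ∑ τ ∈ Finset.range M, ∑ j ∈ Finset.univ.filter (fun j => τ < e j),
          P.ord (C j j) ≤ ∑ τ ∈ Finset.range M, -d τ P := by
        refine Finset.sum_le_sum fun τ _ => ?_
        rw [← hfsum τ fun j => P.ord (C j j)]
        refine minor_le hX hXC hlab hC hC0 (f τ) (f τ).injective (fun l i h => ?_) (hd τ)
        exact hfr τ l ((hfe τ i).trans_le (hlabe _ _ h))
      rw [Finset.sum_neg_distrib] at h8
      linarith
    have h2 : -(Fintype.card Q • (k • c)) ≤ -∑ τ ∈ Finset.range M, d τ + divisor ℂ (ω 1) := by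
      intro P
      have := hmain P
      rw [Finsupp.neg_apply, Finsupp.add_apply, Finsupp.neg_apply, divisor_apply,
        Finsupp.smul_apply, Finsupp.smul_apply, nsmul_eq_mul, nsmul_eq_mul,
        Finsupp.finsetSum_apply]
      exact this
    have h3 := ddeg_mono h2
    have h3' : ddeg (∑ τ ∈ Finset.range M, d τ) = ∑ τ ∈ Finset.range M, ddeg (d τ) := by
      generalize Finset.range M = s
      induction s using Finset.induction_on with
      | empty => rw [Finset.sum_empty, Finset.sum_empty, ddeg_zero]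
      | insert a s ha ih => rw [Finset.sum_insert ha, Finset.sum_insert ha, ddeg_add, ih]
    rw [ddeg_neg, ddeg_add, ddeg_neg, ddeg_divisor, ddeg_nsmul, ddeg_nsmul, add_zero, h3'] at h3
    have h4 : ∀ τ, μ * (Finset.univ.filter fun j => τ < e j).card ≤ ddeg (d τ) := by
      intro τ
      rcases Nat.eq_zero_or_pos (Finset.univ.filter fun j => τ < e j).card with h0 | h0
      · have h5 : ∀ (ρ : ℕ) (Λ : Matrix (Fin r) (Fin ρ) K) (d : Place ℂ K →₀ ℤ), ρ = 0 →
            IsQuot E Λ d → d = 0 := by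
          rintro ρ Λ d rfl h
          exact quot_zero E h
        rw [h0, h5 _ _ _ h0 (hd τ), ddeg_zero]
        simp
      · exact hμ _ _ _ h0 (hd τ)
    have h5 : μ * (∑ τ ∈ Finset.range M, ((Finset.univ.filter fun j => τ < e j).card : ℝ)) ≤
        ((∑ τ ∈ Finset.range M, ddeg (d τ) : ℤ) : ℝ) := by
      rw [Finset.mul_sum]
      push_cast
      exact Finset.sum_le_sum fun τ _ => h4 τ
    have h6 : ∑ τ ∈ Finset.range M, ((Finset.univ.filter fun j => τ < e j).card : ℝ) =
        Fintype.card Q * k * N := by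
      have h7 := layers e (fun _ => 1) hM
      simp only [mul_one, Finset.sum_const, nsmul_eq_mul] at h7
      have h8 : ∑ j, (e j : ℤ) = Fintype.card Q * k * N := by exact_mod_cast hesum
      rw [h8] at h7
      exact_mod_cast h7.symm
    rw [h6] at h5
    have h7 : ((∑ τ ∈ Finset.range M, ddeg (d τ) : ℤ) : ℝ) ≤
        ((Fintype.card Q * (k * ddeg c) : ℤ) : ℝ) := by
      exact_mod_cast (by linarith :
        ∑ τ ∈ Finset.range M, ddeg (d τ) ≤ Fintype.card Q * (k * ddeg c))
    have h8 := h5.trans h7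
    push_cast at h8
    have h9 : (0 : ℝ) < Fintype.card Q * k := by
      exact_mod_cast Nat.mul_pos hQ0 hk
    refine le_of_mul_le_mul_left ?_ h9
    linarith
  · rw [NoInv] at hno
    push Not at hno
    obtain ⟨Q, hQf, hQd, hQn, ν, p, hp, hne⟩ := hno
    obtain ⟨I0, -, hI0⟩ := Finset.exists_ne_zero_of_sum_ne_zero hne
    have hpI0 : p I0 ≠ 0 := fun h => hI0 (by rw [h, map_zero, zero_mul])
    obtain ⟨m', hcard, hm'⟩ := hp.exists_m hr hpI0
    obtain ⟨q0⟩ : Nonempty Q := hQn
    have hQ0 : 0 < Fintype.card Q := Fintype.card_pos_iff.2 ⟨q0⟩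
    obtain ⟨ω, hω⟩ : ∃ ω, ω = ∑ I, algebraMap ℝ K (p I) *
      wordT (N := fun _ : Unit => N) (fun _ : Unit => T0) ν I := ⟨_, rfl⟩
    rw [← hω] at hne
    have h1 : ∀ P, -(Fintype.card Q * c P) ≤ -(m' * E.detDiv P) + P.ord ω := by
      intro P
      have h2 := inv_act hp hm' (E.B P) (wordT (N := fun _ : Unit => N) (fun _ : Unit => T0) ν)
      rw [← hω] at h2
      have h3 : Ge P (-(Fintype.card Q * c P)) (∑ I, algebraMap ℝ K (p I) *
          act (E.B P) (wordT (N := fun _ : Unit => N) (fun _ : Unit => T0) ν) I) := by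
        refine Ge.sum _ fun I _ => ?_
        rw [act_word]
        have h4 := (ge_real (P := P) (p I)).mul (Ge.prod Finset.univ (F := fun q =>
          act (E.B P) T0 (fun l => I ⟨q, l⟩)) (n := fun _ => -c P) fun q _ => by
            rw [hact]
            exact hc P _)
        rw [Finset.sum_const, Finset.card_univ, zero_add, nsmul_eq_mul, mul_neg] at h4
        exact h4
      rw [h2, ge_iff (mul_ne_zero (pow_ne_zero _ (E.det_ne P)) hne),
        P.ord_mul (pow_ne_zero _ (E.det_ne P)) hne, P.ord_pow] at h3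
      have h5 : E.detDiv P = -P.ord (E.B P).det := rfl
      rw [h5, mul_neg, neg_neg]
      exact h3
    have h2 : -(Fintype.card Q • c) ≤ -(m' • E.detDiv) + divisor ℂ ω := by
      intro P
      have := h1 P
      rw [Finsupp.neg_apply, Finsupp.add_apply, Finsupp.neg_apply, divisor_apply,
        Finsupp.smul_apply, Finsupp.smul_apply, nsmul_eq_mul, nsmul_eq_mul]
      exact this
    have h3 := ddeg_mono h2
    rw [ddeg_neg, ddeg_add, ddeg_neg, ddeg_divisor, ddeg_nsmul, ddeg_nsmul, add_zero] at h3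
    have h4 := hμ r 1 _ hr (quot_one E)
    have h5 : (Fintype.card Q : ℝ) * N = r * m' := by
      rw [Fintype.card_sigma] at hcard
      simp only [Fintype.card_fin, Finset.sum_const, Finset.card_univ, smul_eq_mul] at hcard
      exact_mod_cast hcard
    have h6 : ((m' * ddeg E.detDiv : ℤ) : ℝ) ≤ ((Fintype.card Q * ddeg c : ℤ) : ℝ) := by
      exact_mod_cast (by linarith : m' * ddeg E.detDiv ≤ Fintype.card Q * ddeg c)
    push_cast at h6
    have h7 : (0 : ℝ) < Fintype.card Q := by exact_mod_cast hQ0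
    have h8 := mul_le_mul_of_nonneg_left h4 (Nat.cast_nonneg (α := ℝ) m')
    refine le_of_mul_le_mul_left ?_ h7
    calc (Fintype.card Q : ℝ) * (μ * N) = m' * (μ * r) := by rw [mul_left_comm, h5]; ring
      _ ≤ _ := h8.trans h6

end Pool.Agent.Helper9.FJ
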