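import Pool.Agent.Helper9.FJ.Slope

/-!
The determinantal form of a multilinear form whose values are congruent to products.
-/

set_option autoImplicit false
set_option linter.unusedSectionVars false

namespace Pool.Agent.Helper9.FJ

open FF Module

variable {K : Type} [Field K] [Algebra ℂ K] {r : ℕ} {P : Place ℂ K}

theorem ge_det_rc {n : Type*} [Fintype n] [DecidableEq n] {M : Matrix n n K} {a b : n → ℤ}
    (h : ∀ i j, Ge P (a i + b j) (M i j)) : Ge P (∑ i, a i + ∑ j, b j) M.det := by
  rw [Matrix.det_apply']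
  refine Ge.sum _ fun σ _ => ?_
  have h1 := Ge.prod Finset.univ (F := fun i => M (σ i) i) (n := fun i => a (σ i) + b i)
    fun i _ => h (σ i) i
  rw [Finset.sum_add_distrib, Equiv.sum_comp σ a] at h1
  have := (ge_int (P := P) ((Equiv.Perm.sign σ : ℤˣ) : ℤ)).mul h1
  rwa [zero_add] at this

theorem ge_det_rank_one {ρ : ℕ} {Z : Matrix (Fin ρ) (Fin ρ) K} {κ : K} {a b : Fin ρ → K}
    {s e : ℤ} (he : 0 ≤ e) (ha : ∀ i, Ge P 0 (a i)) (hb : ∀ j, Ge P 0 (b j))
    (hκ : Ge P (s - e) κ) (hZ : ∀ i j, Ge P s (Z i j - κ * (a i * b j))) :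
    Ge P (ρ * s - e) Z.det := by
  have h1 := Matrix.det_fromBlocks_one₁₁ (Matrix.of fun (_ : Unit) (j : Fin ρ) => -b j)
    (Matrix.of fun (i : Fin ρ) (_ : Unit) => κ * a i)
    (Matrix.of fun i j => Z i j - κ * (a i * b j))
  have h2 : (Matrix.of fun i j => Z i j - κ * (a i * b j)) -
      (Matrix.of fun (i : Fin ρ) (_ : Unit) => κ * a i) *
        (Matrix.of fun (_ : Unit) (j : Fin ρ) => -b j) = Z := by
    ext i j
    rw [Matrix.sub_apply, Matrix.mul_apply, Matrix.of_apply]
    simp only [Finset.univ_unique, Matrix.of_apply, Finset.sum_singleton]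
    ring
  rw [h2] at h1
  rw [← h1]
  have h3 := ge_det_rc (P := P) (M := Matrix.fromBlocks 1
    (Matrix.of fun (_ : Unit) (j : Fin ρ) => -b j)
    (Matrix.of fun (i : Fin ρ) (_ : Unit) => κ * a i)
    (Matrix.of fun i j => Z i j - κ * (a i * b j)))
    (a := Sum.elim (fun _ => 0) (fun _ => s)) (b := Sum.elim (fun _ => -e) (fun _ => 0)) (by
      rintro (i | i) (j | j)
      · rw [Matrix.fromBlocks_apply₁₁, Sum.elim_inl, Sum.elim_inl]
        exact ge_one.mono (by omega)
      · rw [Matrix.fromBlocks_apply₁₂, Sum.elim_inl, Sum.elim_inr, add_zero]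
        exact (hb j).neg
      · rw [Matrix.fromBlocks_apply₂₁, Sum.elim_inl, Sum.elim_inr]
        have := hκ.mul (ha i)
        rw [add_zero] at this
        exact this
      · rw [Matrix.fromBlocks_apply₂₂, Sum.elim_inr, Sum.elim_inr, add_zero]
        exact hZ i j)
  rw [Fintype.sum_sum_type, Fintype.sum_sum_type] at h3
  simp only [Sum.elim_inl, Sum.elim_inr, Finset.sum_const, Finset.card_univ, Fintype.card_fin,
    nsmul_eq_mul, Fintype.card_unit, Nat.cast_one, mul_zero, zero_add, one_mul, add_zero] at h3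
  exact h3

theorem detForm_update {F V : Type} [Field F] [AddCommGroup V] [Module F V] {k ρ : ℕ}
    (c : MultilinearMap F (fun _ : Fin k => V) (Fin ρ → F)) [DecidableEq (Fin ρ × Fin k)]
    (v : Fin ρ × Fin k → V) (i : Fin ρ × Fin k) (z : V) :
    (Matrix.of fun i' => c (fun l => Function.update v i z (i', l))) =
        Matrix.updateRow (Matrix.of fun i' => c (fun l => v (i', l))) i.1
          (c (Function.update (fun l => v (i.1, l)) i.2 z)) := by
  ext i' j
  by_cases h : i' = i.1
  · have h1 : (fun l => Function.update v i z (i.1, l)) =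
        Function.update (fun l => v (i.1, l)) i.2 z := by
      funext l
      by_cases hl : l = i.2
      · rw [hl, Function.update_self, Function.update_self]
      · rw [Function.update_of_ne hl, Function.update_of_ne fun h' => hl (congrArg Prod.snd h')]
    rw [h, Matrix.updateRow_self, Matrix.of_apply, h1]
  · have h1 : (fun l => Function.update v i z (i', l)) = fun l => v (i', l) := by
      funext l
      rw [Function.update_of_ne fun h' => h (congrArg Prod.fst h')]
    rw [Matrix.updateRow_ne h, Matrix.of_apply, Matrix.of_apply, h1]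

/-- the determinant of values of a vector valued multilinear map -/
noncomputable def detForm {F V : Type} [Field F] [AddCommGroup V] [Module F V] {k ρ : ℕ}
    (c : MultilinearMap F (fun _ : Fin k => V) (Fin ρ → F)) :
    MultilinearMap F (fun _ : Fin ρ × Fin k => V) F where
  toFun v := (Matrix.of fun i => c (fun l => v (i, l))).det
  map_update_add' := by
    intro _ v i x y
    rw [detForm_update, detForm_update, detForm_update, c.map_update_add,
      Matrix.det_updateRow_add]
  map_update_smul' := by
    intro _ v i a x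
    rw [detForm_update, detForm_update, c.map_update_smul, Matrix.det_updateRow_smul, smul_eq_mul]

/-- a basis of the contractions of a multilinear form -/
theorem exists_contraction {k : ℕ} (T : MultilinearMap K (fun _ : Fin (k + 1) => Fin r → K) K)
    (hT : T ≠ 0) : ∃ (ρ : ℕ) (Λ : Matrix (Fin r) (Fin ρ) K) (Y : Matrix (Fin ρ) (Fin r) K)
      (c : MultilinearMap K (fun _ : Fin k => Fin r → K) (Fin ρ → K)), 0 < ρ ∧ Y * Λ = 1 ∧
      (∀ (v : Fin r → K) (u : Fin k → Fin r → K),
        T (Fin.cons v u) = ∑ l, Matrix.vecMul v Λ l * c u l) ∧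
      detForm c ≠ 0 := by
  classical
  obtain ⟨g, hg⟩ : ∃ g : MultilinearMap K (fun _ : Fin k => Fin r → K) (Fin r → K),
      ∀ u j, g u j = T (Fin.cons (Pi.single j 1) u) :=
    ⟨MultilinearMap.pi fun j => T.curryLeft (Pi.single j 1), fun u j => rfl⟩
  have hTg : ∀ (v : Fin r → K) (u : Fin k → Fin r → K), T (Fin.cons v u) = ∑ j, v j * g u j := by
    intro v u
    have h1 : T (Fin.cons v u) = T.curryLeft v u := rfl
    have h2 : v = ∑ j, v j • (Pi.single j 1 : Fin r → K) := pi_eq_sum_univ' v
    rw [h1, h2, map_sum, sum_apply]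
    refine Finset.sum_congr rfl fun j _ => ?_
    rw [map_smul, smul_apply, smul_eq_mul, hg, ← h2]
    rfl
  obtain ⟨ρ, b, hb⟩ : ∃ (ρ : ℕ) (b : Fin ρ → Fin k → Fin r → K),
      LinearIndependent K (fun i => g (b i)) ∧
        Submodule.span K (Set.range fun i => g (b i)) = Submodule.span K (Set.range g) := by
    obtain ⟨s, hs1, hs2, hs3⟩ := exists_linearIndependent K (Set.range g)
    have hfin : Finite s := hs3.finite
    obtain ⟨ρ, ⟨e⟩⟩ := Finite.exists_equiv_fin s
    choose u hu using fun x : s => hs1 x.2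
    refine ⟨ρ, fun i => u (e.symm i), ?_, ?_⟩
    · have h1 : (fun i => g (u (e.symm i))) = (Subtype.val : s → Fin r → K) ∘ e.symm := by
        funext i
        exact hu _
      rw [h1]
      exact hs3.comp _ e.symm.injective
    · have h1 : (Set.range fun i => g (u (e.symm i))) = s := by
        ext x
        constructor
        · rintro ⟨i, rfl⟩
          beta_reduce
          rw [hu]
          exact (e.symm i).2
        · intro hx
          refine ⟨e ⟨x, hx⟩, ?_⟩
          beta_reduce
          rw [Equiv.symm_apply_apply, hu]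
      rw [h1]
      exact hs2
  obtain ⟨Λ, hΛ⟩ : ∃ Λ : Matrix (Fin r) (Fin ρ) K, ∀ j i, Λ j i = g (b i) j := ⟨fun j i => g (b i) j,
    fun _ _ => rfl⟩
  obtain ⟨Y, hY⟩ : ∃ Y : Matrix (Fin ρ) (Fin r) K, Y * Λ = 1 := by
    obtain ⟨φ, hφ⟩ := LinearMap.exists_leftInverse_of_injective (Fintype.linearCombination K
      (fun i => g (b i))) (LinearMap.ker_eq_bot.2 (linearIndependent_iff_injective_fintypeLinearCombination.1 hb.1))
    refine ⟨LinearMap.toMatrix' φ, ?_⟩
    ext i j
    rw [Matrix.mul_apply]
    have h1 : φ (g (b j)) = Pi.single j 1 := by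
      have h2 := LinearMap.congr_fun hφ (Pi.single j 1)
      rw [LinearMap.comp_apply, Fintype.linearCombination_apply_single, one_smul] at h2
      exact h2
    have h3 : ∑ l, LinearMap.toMatrix' φ i l * Λ l j =
        Matrix.mulVec (LinearMap.toMatrix' φ) (g (b j)) i := by
      rw [Matrix.mulVec, dotProduct]
      simp only [hΛ]
    rw [h3, ← Matrix.toLin'_apply, Matrix.toLin'_toMatrix', h1, Matrix.one_apply, Pi.single_apply]
  have hgc : ∀ u, g u = Matrix.mulVec Λ (Matrix.mulVec Y (g u)) := by
    intro u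
    have h1 : g u ∈ Submodule.span K (Set.range fun i => g (b i)) := by
      rw [hb.2]
      exact Submodule.subset_span ⟨u, rfl⟩
    obtain ⟨x, hx⟩ := (Submodule.mem_span_range_iff_exists_fun K).1 h1
    have h2 : g u = Matrix.mulVec Λ x := by
      rw [← hx]
      funext j
      rw [Finset.sum_apply, Matrix.mulVec, dotProduct]
      refine Finset.sum_congr rfl fun i _ => ?_
      rw [Pi.smul_apply, smul_eq_mul, hΛ, mul_comm]
    rw [h2, Matrix.mulVec_mulVec (v := x) (M := Y), hY, Matrix.one_mulVec]
  obtain ⟨c, hc⟩ : ∃ c : MultilinearMap K (fun _ : Fin k => Fin r → K) (Fin ρ → K),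
      ∀ u, c u = Matrix.mulVec Y (g u) := ⟨(Matrix.mulVecLin Y).compMultilinearMap g, fun _ => rfl⟩
  refine ⟨ρ, Λ, Y, c, ?_, hY, fun v u => ?_, fun h0 => ?_⟩
  · rcases Nat.eq_zero_or_pos ρ with h0 | h0
    · exfalso
      subst h0
      apply hT
      refine MultilinearMap.ext fun x => ?_
      have h1 : g (Fin.tail x) = 0 := by
        rw [hgc]
        funext j
        rw [Matrix.mulVec, dotProduct, Finset.univ_eq_empty, Finset.sum_empty]
        rfl
      rw [← Fin.cons_self_tail x, hTg, h1]
      simp
    · exact h0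
  · rw [hTg, hc]
    conv_lhs => rw [hgc u]
    have h1 : ∑ j, v j * Matrix.mulVec Λ (Matrix.mulVec Y (g u)) j =
        dotProduct v (Matrix.mulVec Λ (Matrix.mulVec Y (g u))) := rfl
    rw [h1, Matrix.dotProduct_mulVec]
    rfl
  · have h1 := congrArg (fun D => D (fun x : Fin ρ × Fin k => b x.1 x.2)) h0
    have h2 : detForm c (fun x : Fin ρ × Fin k => b x.1 x.2) = 1 := by
      change (Matrix.of fun i => c (fun l => b i l)).det = 1
      have h3 : (Matrix.of fun i => c (fun l => b i l)) = 1 := by
        ext i j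
        rw [Matrix.of_apply, hc]
        have h4 : Matrix.mulVec Y (g (b i)) j = (Y * Λ) j i := by
          rw [Matrix.mulVec, dotProduct, Matrix.mul_apply]
          simp only [hΛ]
        change Matrix.mulVec Y (g (b i)) j = _
        rw [h4, hY, Matrix.one_apply, Matrix.one_apply]
        exact if_congr eq_comm rfl rfl
      rw [h3, Matrix.det_one]
    beta_reduce at h1
    rw [h2] at h1
    exact one_ne_zero h1

end Pool.Agent.Helper9.FJ
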