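import Pool.Agent.Helper9.FJ.Basic

/-!
Sections of symmetric powers as polynomials.
-/

set_option autoImplicit false
set_option linter.unusedSectionVars false

namespace Pool.Agent.Helper9.FJ

open FF Module MvPolynomial

variable {K : Type} [Field K] [Algebra ℂ K] {r : ℕ} {P : Place ℂ K}

/-- all coefficients have order at least `c` -/
def CGe (P : Place ℂ K) (c : ℤ) (s : MvPolynomial (Fin r) K) : Prop := ∀ α, Ge P c (s.coeff α)

theorem CGe.mono {c c' : ℤ} {s : MvPolynomial (Fin r) K} (h : CGe P c s) (hc : c' ≤ c) :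
    CGe P c' s := fun α => (h α).mono hc

theorem CGe.add {c : ℤ} {s s' : MvPolynomial (Fin r) K} (h : CGe P c s) (h' : CGe P c s') :
    CGe P c (s + s') := fun α => by
  rw [coeff_add]
  exact (h α).add (h' α)

theorem CGe.neg {c : ℤ} {s : MvPolynomial (Fin r) K} (h : CGe P c s) : CGe P c (-s) := fun α => by
  rw [coeff_neg]
  exact (h α).neg

theorem CGe.sum {ι : Type*} {c : ℤ} (S : Finset ι) {s : ι → MvPolynomial (Fin r) K}
    (h : ∀ i ∈ S, CGe P c (s i)) : CGe P c (∑ i ∈ S, s i) := fun α => by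
  rw [coeff_sum]
  exact Ge.sum _ fun i hi => h i hi α

theorem CGe.mul {c c' : ℤ} {s s' : MvPolynomial (Fin r) K} (h : CGe P c s) (h' : CGe P c' s') :
    CGe P (c + c') (s * s') := fun α => by
  classical
  rw [coeff_mul]
  exact Ge.sum _ fun x _ => (h _).mul (h' _)

theorem cge_C {c : ℤ} {a : K} (h : Ge P c a) : CGe P c (C a : MvPolynomial (Fin r) K) := by
  classical
  intro α
  rw [coeff_C]
  split_ifs
  · exact h
  · exact ge_zero

theorem cge_X (j : Fin r) : CGe P 0 (X j : MvPolynomial (Fin r) K) := by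
  classical
  intro α
  rw [coeff_X]
  split_ifs
  · exact ge_one
  · exact ge_zero

theorem cge_one : CGe P 0 (1 : MvPolynomial (Fin r) K) := by
  rw [← C_1]
  exact cge_C ge_one

theorem CGe.prod0 {ι : Type*} (S : Finset ι) {s : ι → MvPolynomial (Fin r) K}
    (h : ∀ i ∈ S, CGe P 0 (s i)) : CGe P 0 (∏ i ∈ S, s i) := by
  classical
  induction S using Finset.induction_on with
  | empty => rw [Finset.prod_empty]; exact cge_one
  | insert a S ha ih =>
    rw [Finset.prod_insert ha]
    have := (h a (Finset.mem_insert_self _ _)).mul (ih fun i hi => h i (Finset.mem_insert_of_mem hi))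
    rwa [add_zero] at this

/-- the value at a regular point -/
theorem CGe.eval {c : ℤ} {s : MvPolynomial (Fin r) K} (h : CGe P c s) {z : Fin r → K}
    (hz : ∀ j, Ge P 0 (z j)) : Ge P c (eval z s) := by
  rw [eval_eq']
  refine Ge.sum _ fun α _ => ?_
  have := (h α).mul (Ge.prod0 Finset.univ (F := fun i => z i ^ α i) fun i _ => by
    have := (hz i).pow (α i)
    rwa [mul_zero] at this)
  rwa [add_zero] at this

theorem ge_pow_sub {x y : K} (hx : Ge P 0 x) (hy : Ge P 0 y) (h : Ge P 1 (x - y)) (n : ℕ) :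
    Ge P 1 (x ^ n - y ^ n) := by
  induction n with
  | zero => rw [pow_zero, pow_zero, sub_self]; exact ge_zero
  | succ n ih =>
    have h1 : x ^ (n + 1) - y ^ (n + 1) = x ^ n * (x - y) + (x ^ n - y ^ n) * y := by ring
    rw [h1]
    have h2 : Ge P 0 (x ^ n) := by
      have := hx.pow n
      rwa [mul_zero] at this
    have h3 := h2.mul h
    have h4 := ih.mul hy
    rw [zero_add] at h3
    rw [add_zero] at h4
    exact h3.add h4

theorem ge_prod_sub {ι : Type*} (S : Finset ι) {x y : ι → K} (hx : ∀ i, Ge P 0 (x i))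
    (hy : ∀ i, Ge P 0 (y i)) (h : ∀ i, Ge P 1 (x i - y i)) :
    Ge P 1 (∏ i ∈ S, x i - ∏ i ∈ S, y i) := by
  classical
  induction S using Finset.induction_on with
  | empty => rw [Finset.prod_empty, Finset.prod_empty, sub_self]; exact ge_zero
  | insert a S ha ih =>
    rw [Finset.prod_insert ha, Finset.prod_insert ha]
    have h1 : x a * ∏ i ∈ S, x i - y a * ∏ i ∈ S, y i =
        x a * (∏ i ∈ S, x i - ∏ i ∈ S, y i) + (x a - y a) * ∏ i ∈ S, y i := by ring
    rw [h1]
    have h3 := (hx a).mul ih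
    have h4 := (h a).mul (Ge.prod0 S fun i _ => hy i)
    rw [zero_add] at h3
    rw [add_zero] at h4
    exact h3.add h4

/-- congruent points -/
theorem CGe.eval_sub {c : ℤ} {s : MvPolynomial (Fin r) K} (h : CGe P c s) {z z' : Fin r → K}
    (hz : ∀ j, Ge P 0 (z j)) (hz' : ∀ j, Ge P 0 (z' j)) (hzz : ∀ j, Ge P 1 (z j - z' j)) :
    Ge P (c + 1) (MvPolynomial.eval z s - MvPolynomial.eval z' s) := by
  rw [eval_eq', eval_eq', ← Finset.sum_sub_distrib]
  refine Ge.sum _ fun α _ => ?_
  rw [← mul_sub]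
  refine (h α).mul ?_
  have h1 : ∀ x : K, ∀ n : ℕ, Ge P 0 x → Ge P 0 (x ^ n) := fun x n hx => by
    have := hx.pow n
    rwa [mul_zero] at this
  exact ge_prod_sub _ (fun i => h1 _ _ (hz i)) (fun i => h1 _ _ (hz' i))
    fun i => ge_pow_sub (hz i) (hz' i) (hzz i) _

theorem CGe.pderiv {c : ℤ} {s : MvPolynomial (Fin r) K} (h : CGe P c s) (j : Fin r) :
    CGe P c (MvPolynomial.pderiv j s) := by
  intro α
  rw [coeff_pderiv]
  have := (h (α + Finsupp.single j 1)).mul (ge_int (P := P) ((α j : ℤ) + 1))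
  rw [add_zero] at this
  push_cast at this
  exact this

/-! ### linear forms -/

/-- the linear form with the coefficient vector `v` -/
noncomputable def lf : (Fin r → K) →ₗ[K] MvPolynomial (Fin r) K :=
  Fintype.linearCombination K (X : Fin r → MvPolynomial (Fin r) K)

theorem lf_apply (v : Fin r → K) : lf v = ∑ i, C (v i) * X i := by
  rw [lf, Fintype.linearCombination_apply]
  exact Finset.sum_congr rfl fun i _ => by rw [smul_eq_C_mul]

theorem lf_hom (v : Fin r → K) : (lf v).IsHomogeneous 1 := by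
  rw [lf_apply]
  refine IsHomogeneous.sum _ _ _ fun i _ => ?_
  have := (isHomogeneous_C (Fin r) (v i)).mul (isHomogeneous_X K i)
  rwa [zero_add] at this

theorem eval_lf (v z : Fin r → K) : eval z (lf v) = ∑ i, v i * z i := by
  rw [lf_apply, map_sum]
  simp

theorem cge_lf {c : ℤ} {v : Fin r → K} (h : ∀ i, Ge P c (v i)) : CGe P c (lf v) := by
  rw [lf_apply]
  refine CGe.sum _ fun i _ => ?_
  have := (cge_C (r := r) (h i)).mul (cge_X (P := P) i)
  rwa [add_zero] at this

variable (E : Bundle K r)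

theorem loc_add (P : Place ℂ K) (s s' : MvPolynomial (Fin r) K) :
    loc E P (s + s') = loc E P s + loc E P s' := by
  rw [loc, loc, loc, map_add]

theorem loc_mul (P : Place ℂ K) (s s' : MvPolynomial (Fin r) K) :
    loc E P (s * s') = loc E P s * loc E P s' := by
  rw [loc, loc, loc, map_mul]

theorem loc_neg (P : Place ℂ K) (s : MvPolynomial (Fin r) K) : loc E P (-s) = -loc E P s := by
  rw [loc, loc, map_neg]

theorem loc_sub (P : Place ℂ K) (s s' : MvPolynomial (Fin r) K) :
    loc E P (s - s') = loc E P s - loc E P s' := by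
  rw [loc, loc, loc, map_sub]

theorem loc_zero (P : Place ℂ K) : loc E P (0 : MvPolynomial (Fin r) K) = 0 := by
  rw [loc, map_zero]

theorem loc_pow (P : Place ℂ K) (s : MvPolynomial (Fin r) K) (n : ℕ) :
    loc E P (s ^ n) = loc E P s ^ n := by
  rw [loc, loc, map_pow]

theorem loc_C (P : Place ℂ K) (a : K) : loc E P (C a) = C a := by
  rw [loc]
  exact aeval_C _ _

theorem loc_X (P : Place ℂ K) (j : Fin r) : loc E P (X j) = lf ((E.B P)⁻¹ j) := by
  rw [loc, aeval_X, lf_apply]

theorem loc_prod {ι : Type*} (S : Finset ι) (P : Place ℂ K) (s : ι → MvPolynomial (Fin r) K) :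
    loc E P (∏ i ∈ S, s i) = ∏ i ∈ S, loc E P (s i) := by
  rw [loc, map_prod]
  rfl

theorem loc_lf (P : Place ℂ K) (v : Fin r → K) :
    loc E P (lf v) = lf (Matrix.vecMul v (E.B P)⁻¹) := by
  rw [loc, lf_apply, map_sum]
  have h1 : ∀ i, aeval (fun j => ∑ i, C ((E.B P)⁻¹ j i) * X i) (C (v i) * X i) =
      v i • (lf ((E.B P)⁻¹ i) : MvPolynomial (Fin r) K) := by
    intro i
    rw [map_mul, aeval_X, aeval_C, lf_apply, Algebra.smul_def]
  rw [Finset.sum_congr rfl fun i _ => h1 i]
  simp only [← map_smul, ← map_sum]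
  congr 1
  funext j
  rw [Finset.sum_apply]
  rfl

theorem loc_lf_mul (P : Place ℂ K) (w : Fin r → K) :
    loc E P (lf (Matrix.vecMul w (E.B P))) = lf w := by
  rw [loc_lf, Matrix.vecMul_vecMul, Matrix.mul_nonsing_inv _ (isUnit_iff_ne_zero.2 (E.det_ne P)),
    Matrix.vecMul_one]

theorem loc_hom {P : Place ℂ K} {s : MvPolynomial (Fin r) K} {k : ℕ} (h : s.IsHomogeneous k) :
    (loc E P s).IsHomogeneous k := by
  have h1 := h.aeval (fun j => ∑ i, C ((E.B P)⁻¹ j i) * X i : Fin r → MvPolynomial (Fin r) K)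
    (n := 1) fun j => by
      have := lf_hom ((E.B P)⁻¹ j)
      rwa [lf_apply] at this
  rw [one_mul] at h1
  exact h1

/-- the value of a section in terms of the local coordinates -/
theorem eval_loc (P : Place ℂ K) (z : Fin r → K) (s : MvPolynomial (Fin r) K) :
    eval z (loc E P s) = eval (Matrix.mulVec (E.B P)⁻¹ z) s := by
  induction s using MvPolynomial.induction_on with
  | C a => rw [loc_C, eval_C, eval_C]
  | add p q hp hq => rw [loc_add, map_add, map_add, hp, hq]
  | mul_X p j hp =>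
    rw [loc_mul, map_mul, map_mul, hp, loc_X, eval_lf, eval_X]
    rfl

theorem eval_eq_loc (P : Place ℂ K) (y : Fin r → K) (s : MvPolynomial (Fin r) K) :
    eval y s = eval (Matrix.mulVec (E.B P) y) (loc E P s) := by
  rw [eval_loc, Matrix.mulVec_mulVec, Matrix.nonsing_inv_mul _
    (isUnit_iff_ne_zero.2 (E.det_ne P)), Matrix.one_mulVec]

theorem eval_pt (P : Place ℂ K) (ξ : Fin r → ℂ) (s : MvPolynomial (Fin r) K) :
    eval (pt E P ξ) s = eval (fun i => algebraMap ℂ K (ξ i)) (loc E P s) := by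
  rw [eval_loc, pt]

/-- the chain rule -/
theorem pderiv_loc (P : Place ℂ K) (z η : Fin r → K) (s : MvPolynomial (Fin r) K) :
    ∑ l, η l * eval z (pderiv l (loc E P s)) =
      ∑ j, Matrix.mulVec (E.B P)⁻¹ η j * eval (Matrix.mulVec (E.B P)⁻¹ z) (pderiv j s) := by
  induction s using MvPolynomial.induction_on with
  | C a => simp [loc_C]
  | add p q hp hq =>
    simp only [loc_add, map_add, mul_add, Finset.sum_add_distrib]
    rw [hp, hq]
  | mul_X p j hp =>
    have h1 : ∀ l, η l * eval z (pderiv l (loc E P (p * X j))) =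
        (η l * eval z (pderiv l (loc E P p))) * eval z (loc E P (X j)) +
        eval z (loc E P p) * (η l * (E.B P)⁻¹ j l) := by
      intro l
      rw [loc_mul, Derivation.leibniz, loc_X]
      have h2 : pderiv l (lf ((E.B P)⁻¹ j)) = C ((E.B P)⁻¹ j l) := by
        rw [lf_apply, map_sum, Finset.sum_eq_single l]
        · rw [Derivation.leibniz, pderiv_C, pderiv_X_self]
          simp
        · intro i _ hi
          rw [Derivation.leibniz, pderiv_C, pderiv_X_of_ne hi]
          simp
        · intro h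
          exact absurd (Finset.mem_univ _) h
      rw [h2]
      simp only [smul_eq_mul, map_add, map_mul, eval_C]
      ring
    have h2 : ∀ i, Matrix.mulVec (E.B P)⁻¹ η i * eval (Matrix.mulVec (E.B P)⁻¹ z)
        (pderiv i (p * X j)) = (Matrix.mulVec (E.B P)⁻¹ η i *
          eval (Matrix.mulVec (E.B P)⁻¹ z) (pderiv i p)) * Matrix.mulVec (E.B P)⁻¹ z j +
        eval (Matrix.mulVec (E.B P)⁻¹ z) p * (if i = j then Matrix.mulVec (E.B P)⁻¹ η i else 0) := by
      intro i
      rw [Derivation.leibniz]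
      by_cases h : i = j
      · rw [h, pderiv_X_self]
        simp only [smul_eq_mul, map_add, map_mul, eval_X, if_true, mul_one]
        ring
      · rw [pderiv_X_of_ne (Ne.symm h), if_neg h]
        simp only [smul_eq_mul, map_add, map_mul, eval_X, map_zero]
        ring
    rw [Finset.sum_congr rfl fun l _ => h1 l, Finset.sum_congr rfl fun i _ => h2 i,
      Finset.sum_add_distrib, Finset.sum_add_distrib, ← Finset.sum_mul, ← Finset.sum_mul, hp,
      ← Finset.mul_sum, ← Finset.mul_sum, Finset.sum_ite_eq' Finset.univ j]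
    rw [if_pos (Finset.mem_univ _), eval_loc, eval_loc, eval_X]
    congr 2
    rw [Matrix.mulVec, dotProduct]
    exact Finset.sum_congr rfl fun l _ => mul_comm _ _

end Pool.Agent.Helper9.FJ
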