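import Pool.Agent.Helper9.FJ.Key

/-!
The key inequality.
-/

set_option autoImplicit false
set_option linter.unusedSectionVars false

namespace Pool.Agent.Helper9.FJ

open FF Module

variable {K : Type} [Field K] [Algebra ℂ K] {r : ℕ} {P : Place ℂ K}

/-- a symmetric form with proportional contractions is a product -/
theorem prod_form {F V : Type} [Field F] [AddCommGroup V] [Module F V] {k : ℕ}
    {T : MultilinearMap F (fun _ : Fin (k + 1) => V) F}
    (hsym : ∀ (σ : Equiv.Perm (Fin (k + 1))) (v : Fin (k + 1) → V), T (fun i => v (σ i)) = T v)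
    {lam : V → F} {c : (Fin k → V) → F} (h : ∀ v u, T (Fin.cons v u) = lam v * c u) {w : V}
    (hw : lam w = 1) (v : Fin (k + 1) → V) : T v = (∏ i, lam (v i)) * T (fun _ => w) := by
  classical
  have h0 : ∀ v : Fin (k + 1) → V, T v = lam (v 0) * T (Function.update v 0 w) := by
    intro v
    have h1 : Function.update v 0 w = Fin.cons w (Fin.tail v) := by
      funext i
      refine Fin.cases ?_ (fun j => ?_) i
      · rw [Function.update_self, Fin.cons_zero]
      · rw [Function.update_of_ne (Fin.succ_ne_zero j), Fin.cons_succ]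
        rfl
    rw [h1, h, hw, one_mul]
    conv_lhs => rw [← Fin.cons_self_tail v]
    rw [h]
  have h1 : ∀ (i : Fin (k + 1)) (v : Fin (k + 1) → V),
      T v = lam (v i) * T (Function.update v i w) := by
    intro i v
    have h2 := h0 (fun j => v (Equiv.swap 0 i j))
    rw [hsym, Equiv.swap_apply_left] at h2
    rw [h2, ← hsym (Equiv.swap 0 i) (Function.update v i w)]
    congr 2
    funext j
    by_cases hj : j = 0
    · rw [hj, Function.update_self, Equiv.swap_apply_left, Function.update_self]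
    · rw [Function.update_of_ne hj, Function.update_of_ne]
      intro h3
      apply hj
      have h4 := congrArg (Equiv.swap 0 i) h3
      rwa [Equiv.swap_apply_self, Equiv.swap_apply_right] at h4
  have h2 : ∀ s : Finset (Fin (k + 1)),
      T v = (∏ i ∈ s, lam (v i)) * T (s.piecewise (fun _ => w) v) := by
    intro s
    induction s using Finset.induction_on with
    | empty => rw [Finset.prod_empty, one_mul, Finset.piecewise_empty]
    | insert a s ha ih =>
      rw [Finset.prod_insert ha, ih, Finset.piecewise_insert, h1 a (s.piecewise (fun _ => w) v),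
        Finset.piecewise_eq_of_notMem _ _ _ ha]
      ring
  have h3 := h2 Finset.univ
  rwa [Finset.piecewise_univ] at h3

variable [IsFF ℂ K]

/-- **The key inequality.** -/
theorem key (hr : 0 < r) (E : Bundle K r) (μ : ℝ)
    (hμ : ∀ (ρ : ℕ) (Λ : Matrix (Fin r) (Fin ρ) K) (d : Place ℂ K →₀ ℤ), 0 < ρ → IsQuot E Λ d →
      μ * ρ ≤ ddeg d)
    {k : ℕ} (T : MultilinearMap K (fun _ : Fin (k + 1) => Fin r → K) K) (hT : T ≠ 0)
    (hsym : ∀ (σ : Equiv.Perm (Fin (k + 1))) (v : Fin (k + 1) → Fin r → K),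
      T (fun i => v (σ i)) = T v)
    (N' e : Place ℂ K →₀ ℤ) (he : ∀ P, 0 ≤ e P) (z : Place ℂ K → Fin r → K) (κ : Place ℂ K → K)
    (hz : ∀ P j, Ge P 0 (z P j)) (hκ : ∀ P, Ge P (N' P - e P) (κ P))
    (hTz : ∀ P (J : Fin (k + 1) → Fin r),
      Ge P (N' P) (T (fun i => E.B P (J i)) - κ P * ∏ i, z P (J i))) :
    ∃ (ρ : ℕ) (Λ : Matrix (Fin r) (Fin ρ) K) (δ : Place ℂ K →₀ ℤ), 0 < ρ ∧ IsQuot E Λ δ ∧
      ((2 ≤ ρ ∧ ρ * (μ * (k + 1) + ddeg N') ≤ ddeg e) ∨
        (ρ = 1 ∧ (k + 1) * ddeg δ + ddeg N' ≤ ddeg e)) := by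
  classical
  obtain ⟨ρ, Λ, Y, c, hρ, hY, hTc, hD⟩ := exists_contraction T hT
  obtain ⟨δ, hδ⟩ := exists_quot E hY
  refine ⟨ρ, Λ, δ, hρ, hδ, ?_⟩
  by_cases hρ2 : 2 ≤ ρ
  · left
    refine ⟨hρ2, ?_⟩
    have h1 := slope (N := ρ * k) hr E μ hμ ((detForm c).domDomCongr finProdFinEquiv) (by
      intro h0
      apply hD
      refine MultilinearMap.ext fun v => ?_
      have h2 := congrArg (fun D => D (fun x => v (finProdFinEquiv.symm x))) h0
      beta_reduce at h2
      rw [MultilinearMap.domDomCongr_apply] at h2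
      simp only [Equiv.symm_apply_apply] at h2
      rw [h2]
      rfl) (-(ρ • N') + e - δ) (by
      intro P J
      rw [MultilinearMap.domDomCongr_apply]
      obtain ⟨J', hJ'⟩ : ∃ J' : Fin ρ × Fin k → Fin r, ∀ x, J' x = J (finProdFinEquiv x) :=
        ⟨_, fun _ => rfl⟩
      simp only [← hJ']
      obtain ⟨S, hS, hSd⟩ := (hδ P).2
      obtain ⟨Z, hZ⟩ : ∃ Z : Matrix (Fin ρ) (Fin ρ) K, ∀ i j, Z i j =
        T (Fin.cons (E.B P (S i)) (fun l => E.B P (J' (j, l)))) := ⟨fun i j => _, fun _ _ => rfl⟩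
      have h2 : Z = (E.B P * Λ).submatrix S id *
          (Matrix.of fun j => c (fun l => E.B P (J' (j, l)))).transpose := by
        ext i j
        rw [hZ, hTc, Matrix.mul_apply]
        rfl
      have h3 : Z.det = ((E.B P * Λ).submatrix S id).det *
          detForm c (fun x => E.B P (J' x)) := by
        rw [h2, Matrix.det_mul, Matrix.det_transpose]
        rfl
      have h4 : Ge P (ρ * N' P - e P) Z.det := by
        refine ge_det_rank_one (κ := κ P) (a := fun i => z P (S i))
          (b := fun j => ∏ l, z P (J' (j, l))) (he P) (fun i => hz P _)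
          (fun j => Ge.prod0 _ fun l _ => hz P _) (hκ P) fun i j => ?_
        have h5 := hTz P (Fin.cons (S i) (fun l => J' (j, l)))
        have h6 : (fun i' => E.B P ((Fin.cons (S i) (fun l => J' (j, l)) : Fin (k + 1) → Fin r) i')) =
            Fin.cons (E.B P (S i)) (fun l => E.B P (J' (j, l))) := by
          funext i'
          refine Fin.cases ?_ (fun l => ?_) i'
          · rfl
          · rfl
        rw [h6, ← hZ, Fin.prod_univ_succ] at h5
        exact h5
      rw [h3] at h4
      refine Ge.of_mul hS ?_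
      rw [hSd]
      refine h4.mono (le_of_eq ?_)
      simp only [Finsupp.sub_apply, Finsupp.add_apply, Finsupp.neg_apply, Finsupp.smul_apply,
        nsmul_eq_mul]
      ring)
    have h2 := hμ ρ Λ δ hρ hδ
    rw [ddeg_sub, ddeg_add, ddeg_neg, ddeg_nsmul] at h1
    push_cast at h1
    linarith
  · right
    obtain rfl : ρ = 1 := by omega
    refine ⟨rfl, ?_⟩
    have h1 : ∀ v (u : Fin k → Fin r → K), T (Fin.cons v u) = Matrix.vecMul v Λ 0 * c u 0 := by
      intro v u
      rw [hTc]
      simp
    have h2 : Matrix.vecMul (Y 0) Λ 0 = 1 := by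
      have h3 : Matrix.vecMul (Y 0) Λ 0 = (Y * Λ) 0 0 := rfl
      rw [h3, hY, Matrix.one_apply_eq]
    have h3 := prod_form hsym h1 h2
    obtain ⟨f, hf⟩ : ∃ f, f = T (fun _ => Y 0) := ⟨_, rfl⟩
    rw [← hf] at h3
    have hf0 : f ≠ 0 := by
      intro h0
      apply hT
      refine MultilinearMap.ext fun v => ?_
      rw [h3 v, h0, mul_zero]
      rfl
    have h4 : N' - e ≤ -((k + 1) • δ) + divisor ℂ f := by
      intro P
      rw [Finsupp.sub_apply, Finsupp.add_apply, Finsupp.neg_apply, Finsupp.smul_apply,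
        divisor_apply, nsmul_eq_mul]
      obtain ⟨S, hS, hSd⟩ := (hδ P).2
      rw [Matrix.det_unique] at hS hSd
      have h5 : ((E.B P * Λ).submatrix S id) default default = Matrix.vecMul (E.B P (S 0)) Λ 0 :=
        rfl
      rw [h5] at hS hSd
      have h6 := hTz P (fun _ => S 0)
      have h7 := ((h6.mono (sub_le_self _ (he P))).add (by
        have := (hκ P).mul (Ge.prod0 Finset.univ (F := fun i : Fin (k + 1) => z P (S 0))
          fun i _ => hz P _)
        rwa [add_zero] at this : Ge P (N' P - e P) (κ P * ∏ i : Fin (k + 1), z P (S 0))))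
      rw [sub_add_cancel, h3, Finset.prod_const, Finset.card_univ, Fintype.card_fin,
        ge_iff (mul_ne_zero (pow_ne_zero _ hS) hf0), P.ord_mul (pow_ne_zero _ hS) hf0, P.ord_pow,
        hSd] at h7
      linarith
    have h5 := ddeg_mono h4
    rw [ddeg_sub, ddeg_add, ddeg_neg, ddeg_nsmul, ddeg_divisor, add_zero] at h5
    push_cast at h5
    linarith

end Pool.Agent.Helper9.FJ
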