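import Pool.Agent.Helper9.FJ.Poly
import Pool.Agent.Helper9.FJ.KeyIneq
import Pool.Agent.Helper90.FJ.Dual

/-!
Obstructions to the existence of sections give multilinear forms.
-/

set_option autoImplicit false
set_option linter.unusedSectionVars false

namespace Pool.Agent.Helper9.FJ

open FF Module MvPolynomial

variable {K : Type} [Field K] [Algebra ℂ K] {r : ℕ} {P : Place ℂ K}

theorem CGe.prod {ι : Type*} (S : Finset ι) {s : ι → MvPolynomial (Fin r) K} {n : ι → ℤ}
    (h : ∀ i ∈ S, CGe P (n i) (s i)) : CGe P (∑ i ∈ S, n i) (∏ i ∈ S, s i) := by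
  classical
  induction S using Finset.induction_on with
  | empty => rw [Finset.prod_empty, Finset.sum_empty]; exact cge_one
  | insert a S ha ih =>
    rw [Finset.prod_insert ha, Finset.sum_insert ha]
    exact (h a (Finset.mem_insert_self _ _)).mul (ih fun i hi => h i (Finset.mem_insert_of_mem hi))

theorem CGe.pow {c : ℤ} {s : MvPolynomial (Fin r) K} (h : CGe P c s) (n : ℕ) :
    CGe P (n * c) (s ^ n) := by
  have := CGe.prod (Finset.range n) (s := fun _ => s) (n := fun _ => c) fun _ _ => h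
  rwa [Finset.prod_const, Finset.sum_const, Finset.card_range, nsmul_eq_mul] at this

/-- the exponents of degree `k` -/
abbrev Ix (r k : ℕ) : Type :=
  {α : Fin r →₀ ℕ // α ∈ (Finset.univ : Finset (Fin r)).finsuppAntidiag k}

theorem Ix.sum {k : ℕ} (α : Ix r k) : ∑ j, α.1 j = k := (Finset.mem_finsuppAntidiag.1 α.2).1

/-- the homogeneous polynomial with given coefficients -/
noncomputable def pol {k : ℕ} : (Ix r k → K) →ₗ[K] MvPolynomial (Fin r) K :=
  ∑ α : Ix r k, (monomial α.1).comp (LinearMap.proj α)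

theorem pol_apply {k : ℕ} (f : Ix r k → K) : pol f = ∑ α : Ix r k, monomial α.1 (f α) := by
  rw [pol, LinearMap.sum_apply]
  rfl

theorem coeff_pol {k : ℕ} (f : Ix r k → K) (α : Ix r k) : coeff α.1 (pol f) = f α := by
  classical
  rw [pol_apply, coeff_sum, Finset.sum_eq_single α]
  · rw [coeff_monomial, if_pos rfl]
  · intro β _ hβ
    rw [coeff_monomial, if_neg fun h => hβ (Subtype.ext h)]
  · intro h
    exact absurd (Finset.mem_univ _) h

theorem pol_hom {k : ℕ} (f : Ix r k → K) : (pol f).IsHomogeneous k := by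
  rw [pol_apply]
  refine IsHomogeneous.sum _ _ _ fun α _ => isHomogeneous_monomial _ ?_
  rw [Finsupp.degree_eq_sum, α.sum]

theorem pol_coeff {k : ℕ} {s : MvPolynomial (Fin r) K} (hs : s.IsHomogeneous k) :
    pol (fun α : Ix r k => coeff α.1 s) = s := by
  classical
  ext α
  by_cases hα : ∑ j, α j = k
  · have h1 : α ∈ (Finset.univ : Finset (Fin r)).finsuppAntidiag k :=
      Finset.mem_finsuppAntidiag.2 ⟨hα, Finset.subset_univ _⟩
    exact coeff_pol _ ⟨α, h1⟩
  · rw [(pol_hom _).coeff_eq_zero, hs.coeff_eq_zero]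
    · rwa [Finsupp.degree_eq_sum]
    · rwa [Finsupp.degree_eq_sum]

theorem exists_word {k : ℕ} : ∀ α : Fin r →₀ ℕ, ∑ j, α j = k →
    ∃ J : Fin k → Fin r, ∏ i, X (J i) = (monomial α 1 : MvPolynomial (Fin r) K) := by
  induction k with
  | zero =>
    intro α hα
    refine ⟨Fin.elim0, ?_⟩
    have h1 : α = 0 := by
      ext j
      exact Finset.sum_eq_zero_iff.1 hα j (Finset.mem_univ j)
    rw [h1, Finset.univ_eq_empty, Finset.prod_empty]
    rfl
  | succ k ih =>
    intro α hα
    obtain ⟨j, hj⟩ : ∃ j, α j ≠ 0 := by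
      by_contra hcon
      push Not at hcon
      rw [Finset.sum_eq_zero fun j _ => hcon j] at hα
      omega
    have h1 : α = Finsupp.single j 1 + (α - Finsupp.single j 1) := by
      rw [add_tsub_cancel_of_le]
      exact Finsupp.single_le_iff.2 (by omega)
    obtain ⟨J, hJ⟩ := ih (α - Finsupp.single j 1) (by
      have h2 : ∑ i, α i =
          ∑ i, (Finsupp.single j 1 + (α - Finsupp.single j 1) : Fin r →₀ ℕ) i := by rw [← h1]
      simp only [Finsupp.add_apply, Finset.sum_add_distrib] at h2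
      have h3 : ∑ i, (Finsupp.single j 1 : Fin r →₀ ℕ) i = 1 := by
        classical
        simp [Finsupp.single_apply]
      rw [h3, hα] at h2
      omega)
    refine ⟨Fin.cons j J, ?_⟩
    rw [Fin.prod_univ_succ]
    simp only [Fin.cons_zero, Fin.cons_succ]
    rw [hJ]
    conv_rhs => rw [h1, ← one_mul (1 : K), ← monomial_mul]
    rfl

variable [IsFF ℂ K]

/-- **Obstructions.** -/
theorem obst {W : Place ℂ K →₀ ℤ} (hW : IsCanonical W) (E : Bundle K r) {k : ℕ}
    (N : Place ℂ K →₀ ℤ) (G : Place ℂ K → AddSubgroup (MvPolynomial (Fin r) K))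
    (hG : ∀ P (c : K) s, P.Reg c → s ∈ G P → C c * s ∈ G P) (e : Place ℂ K →₀ ℤ)
    (he : ∀ P, 0 ≤ e P) (hGe : ∀ P s, CGe P (e P - N P) (loc E P s) → s ∈ G P) (P0 : Place ℂ K)
    (s0 : MvPolynomial (Fin r) K) (hs0 : s0.IsHomogeneous k)
    (hno : ∀ s : MvPolynomial (Fin r) K, s.IsHomogeneous k →
      (∀ P, P ≠ P0 → CGe P (-N P) (loc E P s) ∧ s ∈ G P) →
        CGe P0 (-N P0) (loc E P0 (s - s0)) → s - s0 ∉ G P0) :
    ∃ φ : MvPolynomial (Fin r) K →ₗ[K] K, (∃ J : Fin k → Fin r, φ (∏ i, X (J i)) ≠ 0) ∧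
      ∀ P s, s.IsHomogeneous k → CGe P (-N P) (loc E P s) → s ∈ G P → Ge P (-W P) (φ s) := by
  classical
  -- a bound for the local lattices
  have hb : ∀ P, ∃ b : ℤ, b ≤ 0 ∧ (E.B P = 1 → b = 0) ∧ ∀ i j, Ge P b ((E.B P)⁻¹ i j) := by
    intro P
    by_cases hB : E.B P = 1
    · refine ⟨0, le_rfl, fun _ => rfl, fun i j => ?_⟩
      rw [hB, inv_one, Matrix.one_apply]
      split_ifs
      · exact ge_one
      · exact ge_zero
    · obtain ⟨n, hn⟩ := exists_bound P (fun x : Fin r × Fin r => (E.B P)⁻¹ x.1 x.2)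
      exact ⟨min n 0, min_le_right _ _, fun h => absurd h hB,
        fun i j => (hn (i, j)).mono (min_le_left _ _)⟩
  choose b hb0 hb1 hb2 using hb
  have hbfin : {P | b P ≠ 0}.Finite := E.fin.subset fun P hP hB => hP (hb1 P hB)
  have hpol : ∀ (P : Place ℂ K) (c : ℤ) (x : Ix r k → K), (∀ α, Ge P c (x α)) →
      CGe P (c + k * b P) (loc E P (pol x)) := by
    intro P c x hx
    rw [pol_apply, loc, map_sum]
    refine CGe.sum _ fun α _ => ?_
    have h1 : aeval (fun j => ∑ i, C ((E.B P)⁻¹ j i) * X i) (monomial α.1 (x α)) =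
        C (x α) * ∏ j, (lf ((E.B P)⁻¹ j) : MvPolynomial (Fin r) K) ^ α.1 j := by
      rw [aeval_monomial, Finsupp.prod_fintype _ _ fun j => pow_zero _]
      simp only [lf_apply]
      rfl
    rw [h1]
    refine (cge_C (hx α)).mul ?_
    have h2 := CGe.prod (P := P) Finset.univ
      (s := fun j => (lf ((E.B P)⁻¹ j) : MvPolynomial (Fin r) K) ^ α.1 j)
      (n := fun j => α.1 j * b P) fun j _ => (cge_lf fun i => hb2 P j i).pow _
    rw [← Finset.sum_mul] at h2
    have h3 : ∑ j, (α.1 j : ℤ) = k := by exact_mod_cast α.sum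
    rwa [h3] at h2
  let Λ : Place ℂ K → AddSubgroup (Ix r k → K) := fun P =>
    { carrier := {x | CGe P (-N P) (loc E P (pol x)) ∧ pol x ∈ G P}
      zero_mem' := by
        refine ⟨?_, ?_⟩
        · rw [map_zero, loc_zero]
          intro α
          rw [coeff_zero]
          exact ge_zero
        · rw [map_zero]
          exact (G P).zero_mem
      add_mem' := by
        rintro x y ⟨hx1, hx2⟩ ⟨hy1, hy2⟩
        refine ⟨?_, ?_⟩
        · rw [map_add, loc_add]
          exact hx1.add hy1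
        · rw [map_add]
          exact (G P).add_mem hx2 hy2
      neg_mem' := by
        rintro x ⟨hx1, hx2⟩
        refine ⟨?_, ?_⟩
        · rw [map_neg, loc_neg]
          exact hx1.neg
        · rw [map_neg]
          exact (G P).neg_mem hx2 }
  have hΛ : ∀ P x, x ∈ Λ P ↔ CGe P (-N P) (loc E P (pol x)) ∧ pol x ∈ G P := fun _ _ => Iff.rfl
  obtain ⟨q, hq0, hq⟩ := Pool.Agent.Helper90.FJ.dual hW Λ (by
    intro P c x hc hx
    rw [hΛ] at hx ⊢
    rw [map_smul, smul_eq_C_mul]
    refine ⟨?_, hG P c _ hc hx.2⟩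
    rw [loc_mul, loc_C]
    have := (cge_C (r := r) (hc : Ge P 0 c)).mul hx.1
    rwa [zero_add] at this) (e - N - k • Finsupp.ofSupportFinite b hbfin) (by
    intro P x hx
    rw [hΛ]
    have h1 := hpol P _ x hx
    have h2 : (e - N - k • Finsupp.ofSupportFinite b hbfin) P + k * b P = e P - N P := by
      rw [Finsupp.sub_apply, Finsupp.sub_apply, Finsupp.smul_apply, nsmul_eq_mul]
      exact sub_add_cancel _ _
    rw [h2] at h1
    exact ⟨h1.mono (by have := he P; omega), hGe P _ h1⟩) P0 (fun α => coeff α.1 s0) (by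
    intro f hf hcon
    rw [hΛ, map_sub, pol_coeff hs0] at hcon
    exact hno (pol f) (pol_hom f) (fun P hP => (hΛ P f).1 (hf P hP)) hcon.1 hcon.2)
  refine ⟨∑ α : Ix r k, q α • lcoeff K α.1, ?_, fun P s hs hs1 hs2 => ?_⟩
  · obtain ⟨α, hα⟩ := Function.ne_iff.1 hq0
    obtain ⟨J, hJ⟩ := exists_word (K := K) α.1 α.sum
    refine ⟨J, ?_⟩
    rw [hJ, LinearMap.sum_apply, Finset.sum_eq_single α]
    · rw [LinearMap.smul_apply, lcoeff_apply, coeff_monomial, if_pos rfl, smul_eq_mul, mul_one]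
      exact hα
    · intro β _ hβ
      rw [LinearMap.smul_apply, lcoeff_apply, coeff_monomial,
        if_neg fun h => hβ (Subtype.ext h.symm), smul_zero]
    · intro h
      exact absurd (Finset.mem_univ _) h
  · have h1 := hq P (fun α => coeff α.1 s) ((hΛ _ _).2 (by rw [pol_coeff hs]; exact ⟨hs1, hs2⟩))
    rw [LinearMap.sum_apply]
    exact h1

/-- the multilinear form of a linear form on the polynomials -/
noncomputable def mf (k : ℕ) (φ : MvPolynomial (Fin r) K →ₗ[K] K) :
    MultilinearMap K (fun _ : Fin k => Fin r → K) K :=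
  φ.compMultilinearMap ((MultilinearMap.mkPiAlgebra K (Fin k) (MvPolynomial (Fin r) K)).compLinearMap
    fun _ => lf)

theorem mf_apply {k : ℕ} (φ : MvPolynomial (Fin r) K →ₗ[K] K) (v : Fin k → Fin r → K) :
    mf k φ v = φ (∏ i, lf (v i)) := rfl

theorem mf_sym {k : ℕ} (φ : MvPolynomial (Fin r) K →ₗ[K] K) (σ : Equiv.Perm (Fin k))
    (v : Fin k → Fin r → K) : mf k φ (fun i => v (σ i)) = mf k φ v := by
  rw [mf_apply, mf_apply, Equiv.prod_comp σ fun i => lf (v i)]

theorem lf_single (j : Fin r) : lf (Pi.single j (1 : K)) = X j := by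
  rw [lf, Fintype.linearCombination_apply_single, one_smul]

theorem mf_ne {k : ℕ} {φ : MvPolynomial (Fin r) K →ₗ[K] K} {J : Fin k → Fin r}
    (h : φ (∏ i, X (J i)) ≠ 0) : mf k φ ≠ 0 := by
  intro h0
  apply h
  have h1 : mf k φ (fun i => Pi.single (J i) 1) = 0 := by rw [h0]; rfl
  rw [mf_apply] at h1
  simp only [lf_single] at h1
  exact h1

theorem loc_row (E : Bundle K r) (P : Place ℂ K) (j : Fin r) :
    loc E P (lf (E.B P j)) = X j := by
  have h1 : E.B P j = Matrix.vecMul (Pi.single j 1) (E.B P) := by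
    rw [Matrix.single_one_vecMul]
    rfl
  rw [h1, loc_lf_mul, lf_single]

/-- obstructions which are concentrated in a fibre -/
theorem fibre (hr : 0 < r) {W : Place ℂ K →₀ ℤ} (hW : IsCanonical W) (E : Bundle K r) (μ : ℝ)
    (hμ : ∀ (ρ : ℕ) (Λ : Matrix (Fin r) (Fin ρ) K) (d : Place ℂ K →₀ ℤ), 0 < ρ → IsQuot E Λ d →
      μ * ρ ≤ ddeg d) {k : ℕ} (N : Place ℂ K →₀ ℤ) (P0 : Place ℂ K)
    (G : AddSubgroup (MvPolynomial (Fin r) K)) (hG : ∀ (c : K) s, P0.Reg c → s ∈ G → C c * s ∈ G)
    (hG1 : ∀ s, CGe P0 (1 - N P0) (loc E P0 s) → s ∈ G) (s0 : MvPolynomial (Fin r) K)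
    (hs0 : s0.IsHomogeneous k) (hs0' : CGe P0 (-N P0) (loc E P0 s0))
    (hno : ∀ s, IsSec E k N s → s - s0 ∉ G) : μ * k + ddeg N ≤ ddeg W + 1 := by
  classical
  obtain ⟨φ, ⟨J0, hJ0⟩, hφ⟩ := obst (k := k) hW E N (fun P => if P = P0 then G else ⊤)
    (fun P c s hc hs => by
      split_ifs at hs ⊢ with h
      · subst h
        exact hG c s hc hs
      · exact AddSubgroup.mem_top _) (Finsupp.single P0 1) (fun P => by
      rw [Finsupp.single_apply]
      split_ifs <;> norm_num) (fun P s hs => by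
      split_ifs with h
      · subst h
        rw [Finsupp.single_eq_same] at hs
        exact hG1 s hs
      · exact AddSubgroup.mem_top _) P0 s0 hs0 (fun s hs h1 h2 => by
      rw [if_pos rfl]
      refine hno s ⟨hs, fun P => ?_⟩
      by_cases hP : P = P0
      · subst hP
        have h3 := h2.add hs0'
        rw [← loc_add, sub_add_cancel] at h3
        exact h3
      · exact (h1 P hP).1)
  have h1 := slope hr E μ hμ (mf k φ) (mf_ne hJ0) (W - N + Finsupp.single P0 1) (by
    intro P J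
    obtain ⟨t, ht0, ht⟩ := P.surj
    rw [mf_apply]
    obtain ⟨a, ha⟩ : ∃ a : ℤ, a = (Finsupp.single P0 1 : Place ℂ K →₀ ℤ) P - N P := ⟨_, rfl⟩
    have h2 : CGe P a (loc E P (C (t ^ a) * ∏ i, lf (E.B P (J i)))) := by
      rw [loc_mul, loc_C, loc_prod]
      have h3 := (cge_C (r := r) (ge_zpow ht a)).mul (CGe.prod0 (P := P) Finset.univ
        (s := fun i => loc E P (lf (E.B P (J i)))) fun i _ => by
          rw [loc_row]
          exact cge_X _)
      rwa [add_zero] at h3
    have h3 : (0 : ℤ) ≤ (Finsupp.single P0 1 : Place ℂ K →₀ ℤ) P := by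
      rw [Finsupp.single_apply]
      split_ifs <;> norm_num
    have h4 := hφ P (C (t ^ a) * ∏ i, lf (E.B P (J i))) (by
      have h5 : (∏ i, lf (E.B P (J i)) : MvPolynomial (Fin r) K).IsHomogeneous (∑ _i : Fin k, 1) :=
        IsHomogeneous.prod _ _ _ fun i _ => lf_hom _
      have h6 := (isHomogeneous_C (Fin r) (t ^ a)).mul h5
      rw [zero_add, Finset.sum_const, Finset.card_univ, Fintype.card_fin, smul_eq_mul,
        mul_one] at h6
      exact h6) (h2.mono (by omega)) (by
      split_ifs with h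
      · subst h
        rw [ha, Finsupp.single_eq_same] at h2
        refine hG1 _ ?_
        rw [ha, Finsupp.single_eq_same]
        exact h2
      · exact AddSubgroup.mem_top _)
    rw [← smul_eq_C_mul, map_smul, smul_eq_mul] at h4
    refine Ge.of_mul (a := t ^ a) (zpow_ne_zero _ ht0) (h4.mono (le_of_eq ?_))
    rw [P.ord_zpow, ht, mul_one, ha, Finsupp.add_apply, Finsupp.sub_apply]
    ring)
  rw [ddeg_add, ddeg_sub, ddeg_single, Pool.Agent.Helper90.FJ.deg_one] at h1
  push_cast at h1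
  linarith

end Pool.Agent.Helper9.FJ
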