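import Pool.Agent.Helper9.FJ.Obst

/-!
Obstructions at points and tangent vectors which are transversal to the fibres.
-/

set_option autoImplicit false
set_option linter.unusedSectionVars false

namespace Pool.Agent.Helper9.FJ

open FF Module MvPolynomial

variable {K : Type} [Field K] [Algebra ℂ K] {r : ℕ} {P : Place ℂ K} [IsFF ℂ K]

theorem eval_row (E : Bundle K r) (P : Place ℂ K) (y : Fin r → K) (j : Fin r) :
    eval y (lf (E.B P j)) = Matrix.mulVec (E.B P) y j := by
  rw [eval_lf]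
  rfl

theorem prod_lf_hom {k : ℕ} (v : Fin k → Fin r → K) :
    (∏ i, lf (v i) : MvPolynomial (Fin r) K).IsHomogeneous k := by
  have h5 : (∏ i, lf (v i) : MvPolynomial (Fin r) K).IsHomogeneous (∑ _i : Fin k, 1) :=
    IsHomogeneous.prod _ _ _ fun i _ => lf_hom _
  simpa using h5

theorem C_mul_hom {k : ℕ} (a : K) {s : MvPolynomial (Fin r) K} (h : s.IsHomogeneous k) :
    (C a * s).IsHomogeneous k := by
  have h6 := (isHomogeneous_C (Fin r) a).mul h
  rwa [zero_add] at h6

/-- the value of a section in local coordinates has the expected order -/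
theorem CGe.eval_loc {E : Bundle K r} {c : ℤ} {s : MvPolynomial (Fin r) K} (h : CGe P c (loc E P s))
    {y : Fin r → K} (hy : ∀ j, Ge P 0 (Matrix.mulVec (E.B P) y j)) :
    Ge P c (MvPolynomial.eval y s) := by
  rw [eval_eq_loc E P]
  exact h.eval hy

/-- obstructions which are given by points and arcs -/
theorem arcs (hr : 0 < r) {W : Place ℂ K →₀ ℤ} (hW : IsCanonical W) (E : Bundle K r) (μ : ℝ)
    (hμ : ∀ (ρ : ℕ) (Λ : Matrix (Fin r) (Fin ρ) K) (d : Place ℂ K →₀ ℤ), 0 < ρ → IsQuot E Λ d →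
      μ * ρ ≤ ddeg d) {k : ℕ} (N e : Place ℂ K →₀ ℤ) (he : ∀ P, 0 ≤ e P)
    (y : Place ℂ K → Fin r → K) (hy : ∀ P j, Ge P 0 (Matrix.mulVec (E.B P) (y P) j))
    (hy1 : ∀ P, 0 < e P → ∃ j, Matrix.mulVec (E.B P) (y P) j ≠ 0 ∧
      P.ord (Matrix.mulVec (E.B P) (y P) j) = 0) (P0 : Place ℂ K)
    (s0 : MvPolynomial (Fin r) K) (hs0 : s0.IsHomogeneous (k + 1))
    (hs0' : CGe P0 (-N P0) (loc E P0 s0))
    (hno : ∀ s, IsSec E (k + 1) N s → (∀ P, P ≠ P0 → Ge P (e P - N P) (eval (y P) s)) →
      ¬ Ge P0 (e P0 - N P0) (eval (y P0) (s - s0))) :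
    ∃ (ρ : ℕ) (Λ : Matrix (Fin r) (Fin ρ) K) (δ : Place ℂ K →₀ ℤ), 0 < ρ ∧ IsQuot E Λ δ ∧
      ((2 ≤ ρ ∧ ρ * (μ * (k + 1) + (ddeg N - ddeg W)) ≤ ddeg e) ∨
        (ρ = 1 ∧ (k + 1) * ddeg δ + (ddeg N - ddeg W) ≤ ddeg e)) := by
  classical
  let G : Place ℂ K → AddSubgroup (MvPolynomial (Fin r) K) := fun P =>
    { carrier := {s | Ge P (e P - N P) (eval (y P) s)}
      zero_mem' := by
        change Ge P (e P - N P) (eval (y P) 0)
        rw [map_zero]
        exact ge_zero
      add_mem' := by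
        intro s s' hs hs'
        change Ge P (e P - N P) (eval (y P) (s + s'))
        rw [map_add]
        exact hs.add hs'
      neg_mem' := by
        intro s hs
        change Ge P (e P - N P) (eval (y P) (-s))
        rw [map_neg]
        exact hs.neg }
  have hG : ∀ P s, s ∈ G P ↔ Ge P (e P - N P) (eval (y P) s) := fun _ _ => Iff.rfl
  obtain ⟨φ, ⟨J0, hJ0⟩, hφ⟩ := obst (k := k + 1) hW E N G (fun P c s hc hs => by
      rw [hG] at hs ⊢
      rw [map_mul, eval_C]
      have hc' : Ge P 0 c := hc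
      have := hc'.mul hs
      rwa [zero_add] at this) e he (fun P s hs => hs.eval_loc (hy P)) P0 s0 hs0
      (fun s hs h1 h2 => by
      rw [hG]
      refine hno s ⟨hs, fun P => ?_⟩ fun P hP => (hG P s).1 (h1 P hP).2
      by_cases hP : P = P0
      · subst hP
        have h3 := h2.add hs0'
        rw [← loc_add, sub_add_cancel] at h3
        exact h3
      · exact (h1 P hP).1)
  -- the values of `φ` on multiples of sections
  have hφ' : ∀ (P : Place ℂ K) (a : ℤ) (s : MvPolynomial (Fin r) K), s.IsHomogeneous (k + 1) →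
      CGe P 0 (loc E P s) → 0 ≤ a → Ge P (e P - a) (eval (y P) s) →
        Ge P (N P - W P - a) (φ s) := by
    intro P a s hs hs1 ha hs2
    obtain ⟨t, ht0, ht⟩ := P.surj
    have h1 := hφ P (C (t ^ (a - N P)) * s) (C_mul_hom _ hs) (by
      rw [loc_mul, loc_C]
      have h3 := (cge_C (r := r) (ge_zpow ht (a - N P))).mul hs1
      exact h3.mono (by omega)) (by
      rw [hG, map_mul, eval_C]
      have h3 := (ge_zpow ht (a - N P)).mul hs2
      exact h3.mono (by omega))
    rw [← smul_eq_C_mul, map_smul, smul_eq_mul] at h1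
    refine Ge.of_mul (a := t ^ (a - N P)) (zpow_ne_zero _ ht0) (h1.mono (le_of_eq ?_))
    rw [P.ord_zpow, ht, mul_one]
    ring
  have hrows : ∀ (P : Place ℂ K) (J : Fin (k + 1) → Fin r),
      CGe P 0 (loc E P (∏ i, lf (E.B P (J i)))) := by
    intro P J
    rw [loc_prod]
    refine CGe.prod0 (P := P) Finset.univ fun i _ => ?_
    rw [loc_row]
    exact cge_X _
  -- the constants
  have hκ : ∀ P, ∃ κ : K, Ge P ((N - W) P - e P) κ ∧ ∀ J : Fin (k + 1) → Fin r,
      Ge P ((N - W) P) (mf (k + 1) φ (fun i => E.B P (J i)) -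
        κ * ∏ i, Matrix.mulVec (E.B P) (y P) (J i)) := by
    intro P
    rcases (he P).lt_or_eq with h | h
    · obtain ⟨j, hj0, hj⟩ := hy1 P h
      obtain ⟨ζ, hζ⟩ : ∃ ζ, ζ = Matrix.mulVec (E.B P) (y P) j := ⟨_, rfl⟩
      rw [← hζ] at hj0 hj
      obtain ⟨w, hw⟩ : ∃ w : MvPolynomial (Fin r) K, w = C ζ⁻¹ * lf (E.B P j) := ⟨_, rfl⟩
      have hw1 : w.IsHomogeneous 1 := by
        rw [hw]
        exact C_mul_hom _ (lf_hom _)
      have hw2 : CGe P 0 (loc E P w) := by
        rw [hw, loc_mul, loc_C, loc_row]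
        have h1 := (cge_C (r := r) (P := P) (c := 0) (a := ζ⁻¹) (Or.inr (by
          rw [P.ord_inv, hj, neg_zero]))).mul (cge_X (P := P) j)
        rwa [add_zero] at h1
      have hw3 : eval (y P) w = 1 := by
        rw [hw, map_mul, eval_C, eval_row, ← hζ, inv_mul_cancel₀ hj0]
      have hwk : (w ^ (k + 1)).IsHomogeneous (k + 1) := by
        have := hw1.pow (k + 1)
        rwa [one_mul] at this
      have hwk2 : CGe P 0 (loc E P (w ^ (k + 1))) := by
        rw [loc_pow]
        have := hw2.pow (k + 1)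
        rwa [mul_zero] at this
      refine ⟨φ (w ^ (k + 1)), ?_, fun J => ?_⟩
      · refine hφ' P (e P) _ hwk hwk2 h.le ?_
        rw [map_pow, hw3, one_pow, sub_self]
        exact ge_one
      · obtain ⟨c, hc⟩ : ∃ c, c = ∏ i, Matrix.mulVec (E.B P) (y P) (J i) := ⟨_, rfl⟩
        have hc0 : Ge P 0 c := by
          rw [hc]
          exact Ge.prod0 _ fun i _ => hy P _
        have h1 := hφ' P 0 (∏ i, lf (E.B P (J i)) + C (-c) * w ^ (k + 1))
          ((prod_lf_hom _).add (C_mul_hom _ hwk)) (by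
            rw [loc_add, loc_mul, loc_C]
            have := (cge_C (r := r) hc0.neg).mul hwk2
            rw [add_zero] at this
            exact (hrows P J).add this) le_rfl (by
            rw [map_add, map_mul, eval_C, map_pow, hw3, one_pow, mul_one, map_prod]
            simp only [eval_row]
            rw [← hc, add_neg_cancel]
            exact ge_zero)
        rw [map_add, ← smul_eq_C_mul, map_smul, smul_eq_mul, neg_mul, ← sub_eq_add_neg,
          mul_comm, sub_zero] at h1
        rw [← hc]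
        exact h1
    · refine ⟨0, ge_zero, fun J => ?_⟩
      rw [zero_mul, sub_zero]
      have h1 := hφ' P 0 (∏ i, lf (E.B P (J i))) (prod_lf_hom _) (hrows P J) le_rfl (by
        rw [← h, sub_zero]
        exact (hrows P J).eval_loc (hy P))
      rw [sub_zero] at h1
      exact h1
  choose κ hκ1 hκ2 using hκ
  have h1 := key hr E μ hμ (mf (k + 1) φ) (mf_ne hJ0) (mf_sym φ) (N - W) e he
    (fun P => Matrix.mulVec (E.B P) (y P)) κ hy hκ1 hκ2
  rw [ddeg_sub] at h1
  push_cast at h1
  exact h1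

end Pool.Agent.Helper9.FJ
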