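import Pool.Agent.Helper12.G.R_seed8.Helper386.D5V.Helper386_FF_Riemann

/-!
Vector bundles on smooth projective curves, line bundles on their projective bundles, and very
ampleness.
-/

set_option autoImplicit false

namespace Pool.Agent.Helper9.FJ

open FF Module MvPolynomial

variable {K : Type} [Field K] [Algebra ℂ K]

/-- The function `f` has order at least `c` at the point `P` of the curve. -/
def Ge (P : Place ℂ K) (c : ℤ) (f : K) : Prop := f = 0 ∨ c ≤ P.ord f

/-- A vector bundle of rank `r` on the smooth projective curve with the function field `K`: the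
generic fibre is `K^r`, and the stalk at the point `P` is the module over the valuation ring of `P`
which is generated by the rows of the invertible matrix `B P`; almost all `B P` are the unit
matrix. -/
structure Bundle (K : Type) [Field K] [Algebra ℂ K] (r : ℕ) where
  B : Place ℂ K → Matrix (Fin r) (Fin r) K
  det_ne : ∀ P, (B P).det ≠ 0
  fin : {P | B P ≠ 1}.Finite

variable {r : ℕ}

/-- The divisor of the determinant of a vector bundle. -/
noncomputable def Bundle.detDiv (E : Bundle K r) : Place ℂ K →₀ ℤ :=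
  Finsupp.ofSupportFinite (fun P => -P.ord (E.B P).det) (E.fin.subset fun P hP => by
    intro h
    apply hP
    change -P.ord (E.B P).det = 0
    rw [h, Matrix.det_one, P.ord_one, neg_zero])

/-- The canonical divisors of a curve, characterised by the theorem of Riemann and Roch
`l(D) - l(W - D) = deg D + 1 - g`. -/
def IsCanonical (W : Place ℂ K →₀ ℤ) [IsFF ℂ K] : Prop :=
  ∃ γ : ℤ, ∀ D : Place ℂ K →₀ ℤ, ell D - ell (W - D) = ddeg D - γ

/-- A polynomial `s` over `K` in `r` variables is an element of the symmetric algebra of the generic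
fibre `K^r` of `E` (the variables are the unit vectors).  This is `s` as a polynomial in the rows of
`E.B P`, the basis of the stalk of `E` at `P`. -/
noncomputable def loc (E : Bundle K r) (P : Place ℂ K) (s : MvPolynomial (Fin r) K) :
    MvPolynomial (Fin r) K :=
  aeval (fun j => ∑ i, C ((E.B P)⁻¹ j i) * X i) s

/-- `s` is a section of the line bundle `O(k) ⊗ π^* O(N)` on the projective bundle `π : P(E) → C`,
that is, of the vector bundle `S^k(E) ⊗ O(N)` on the curve `C`. -/
def IsSec (E : Bundle K r) (k : ℕ) (N : Place ℂ K →₀ ℤ) (s : MvPolynomial (Fin r) K) : Prop :=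
  s.IsHomogeneous k ∧ ∀ P α, Ge P (-N P) ((loc E P s).coeff α)

/-- The points of `P(E)` above `P` are the one-dimensional quotients of the fibre of `E` at `P`, given
by vectors `ξ ≠ 0` in `ℂ^r` up to scalars: the linear function on the fibre with the values `ξ i` on
the rows of `E.B P`.  It is the reduction of the linear function on `K^r` with the coordinate vector
`pt E P ξ`. -/
noncomputable def pt (E : Bundle K r) (P : Place ℂ K) (ξ : Fin r → ℂ) : Fin r → K :=
  (E.B P)⁻¹.mulVec (fun i => algebraMap ℂ K (ξ i))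

/-- The sections of the line bundle `O(k) ⊗ π^* O(N)` on `P(E)` have no common zero.  With a
uniformizer `t` at `P`, the value of `s` at the point `(P, ξ)` is the value of `t ^ N(P) s(pt ξ)` at
`P`. -/
def BaseFree (E : Bundle K r) (k : ℕ) (N : Place ℂ K →₀ ℤ) : Prop :=
  ∀ (P : Place ℂ K) (ξ : Fin r → ℂ), ξ ≠ 0 →
    ∃ s, IsSec E k N s ∧ ¬ Ge P (1 - N P) (eval (pt E P ξ) s)

/-- The sections separate points. -/
def SepPoints (E : Bundle K r) (k : ℕ) (N : Place ℂ K →₀ ℤ) : Prop :=
  ∀ (P Q : Place ℂ K) (ξ η : Fin r → ℂ), ξ ≠ 0 → η ≠ 0 →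
    (P = Q → ¬ ∃ c : ℂ, η = c • ξ) →
    ∃ s, IsSec E k N s ∧ Ge P (1 - N P) (eval (pt E P ξ) s) ∧
      ¬ Ge Q (1 - N Q) (eval (pt E Q η) s)

/-- The sections separate the tangent vectors which are not vertical: for a section `s` which
vanishes at `(P, ξ)`, the derivative in the direction of the tangent vector `(1, η)` at `(P, ξ)` is
the coefficient of `t` in `t ^ N(P) s(pt ξ + t pt η)`. -/
def SepTransversal (E : Bundle K r) (k : ℕ) (N : Place ℂ K →₀ ℤ) : Prop :=
  ∀ (P : Place ℂ K) (t : K) (ξ η : Fin r → ℂ), P.ord t = 1 → ξ ≠ 0 →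
    ∃ s, IsSec E k N s ∧ Ge P (1 - N P) (eval (pt E P ξ) s) ∧
      ¬ Ge P (2 - N P) (eval (pt E P ξ + t • pt E P η) s)

/-- The sections separate the vertical tangent vectors: for a section `s` which vanishes at
`(P, ξ)`, the derivative in the direction of the vertical tangent vector `(0, η)`, `η` not
proportional to `ξ`, is the value at `P` of `t ^ N(P) ∑ (pt η)_j (∂ s / ∂ X_j)(pt ξ)`. -/
def SepVertical (E : Bundle K r) (k : ℕ) (N : Place ℂ K →₀ ℤ) : Prop :=
  ∀ (P : Place ℂ K) (ξ η : Fin r → ℂ), ξ ≠ 0 → (¬ ∃ c : ℂ, η = c • ξ) →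
    ∃ s, IsSec E k N s ∧ Ge P (1 - N P) (eval (pt E P ξ) s) ∧
      ¬ Ge P (1 - N P) (∑ j, pt E P η j * eval (pt E P ξ) (pderiv j s))

/-- The line bundle `O(k) ⊗ π^* O(N)` on `P(E)` is very ample: its sections have no common zero, and
they separate points and tangent vectors. -/
def VeryAmple (E : Bundle K r) (k : ℕ) (N : Place ℂ K →₀ ℤ) : Prop :=
  BaseFree E k N ∧ SepPoints E k N ∧ SepTransversal E k N ∧ SepVertical E k N

/-- The line bundle `O(a) ⊗ π^* O(b)` on `P(E)` is ample. -/
def IsAmple (E : Bundle K r) (a : ℕ) (b : Place ℂ K →₀ ℤ) : Prop :=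
  ∃ M : ℕ, 0 < M ∧ VeryAmple E (M * a) (M • b)

/-- `Λ` is the matrix of a surjective linear map `K^r → K^ρ`, `v ↦ v Λ`, and `d` is the divisor of the
determinant of the image of `E`, which is a quotient bundle of `E`. -/
def IsQuot (E : Bundle K r) {ρ : ℕ} (Λ : Matrix (Fin r) (Fin ρ) K) (d : Place ℂ K →₀ ℤ) : Prop :=
  ∀ P, (∀ S : Fin ρ → Fin r, Ge P (-d P) ((E.B P * Λ).submatrix S id).det) ∧
    ∃ S : Fin ρ → Fin r, ((E.B P * Λ).submatrix S id).det ≠ 0 ∧
      P.ord ((E.B P * Λ).submatrix S id).det = -d P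

/-- The line bundle `O(a) ⊗ π^* O(b)` has positive degree on all quotients: `a` is positive and
`a deg Q + ρ deg b > 0` for all quotient bundles `Q` of `E`, of rank `ρ ≥ 1`. -/
def Pos (E : Bundle K r) [IsFF ℂ K] (a : ℕ) (b : Place ℂ K →₀ ℤ) : Prop :=
  0 < a ∧ ∀ (ρ : ℕ) (Λ : Matrix (Fin r) (Fin ρ) K) (d : Place ℂ K →₀ ℤ), 0 < ρ → IsQuot E Λ d →
    0 < a * ddeg d + ρ * ddeg b

end Pool.Agent.Helper9.FJ
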