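import Pool.Agent.Helper9.FJ.Basic

/-!
Lattices over valuation rings and quotient bundles.
-/

set_option autoImplicit false

namespace Pool.Agent.Helper9.FJ

open FF Module

variable {K : Type} [Field K] [Algebra ℂ K] {P : Place ℂ K}

theorem ge_zpow {t : K} (ht : P.ord t = 1) (n : ℤ) : Ge P n (t ^ n) :=
  Or.inr (by rw [P.ord_zpow, ht, mul_one])

theorem exists_bound {ι : Type*} [Finite ι] (P : Place ℂ K) (F : ι → K) :
    ∃ n : ℤ, ∀ i, Ge P n (F i) := by
  obtain ⟨n, hn⟩ := (Set.finite_range fun i => P.ord (F i)).bddBelow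
  exact ⟨n, fun i => Or.inr (hn ⟨i, rfl⟩)⟩

/-- adapted bases of lattices -/
theorem hermite (P : Place ℂ K) {n : ℕ} {M : Matrix (Fin n) (Fin n) K} (hM : M.det ≠ 0)
    {lab : Fin n → ℕ} (hlab : Function.Injective lab) :
    ∃ C U X : Matrix (Fin n) (Fin n) K, (∀ i j, Ge P 0 (U i j)) ∧ (∀ i j, Ge P 0 (X i j)) ∧
      C = U * M ∧ M = X * C ∧ ∀ i j, C i j ≠ 0 → lab j ≤ lab i := by
  classical
  obtain ⟨L, hL⟩ : ∃ L : Set (Fin n → K), L = {v | ∃ c : Fin n → K, (∀ j, Ge P 0 (c j)) ∧
    v = Matrix.vecMul c M} := ⟨_, rfl⟩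
  have hLsub : ∀ u ∈ L, ∀ v ∈ L, ∀ a : K, Ge P 0 a → v - a • u ∈ L := by
    intro u hu v hv a ha
    rw [hL] at hu hv ⊢
    obtain ⟨c, hc, rfl⟩ := hu
    obtain ⟨c', hc', rfl⟩ := hv
    refine ⟨c' - a • c, fun j => (hc' j).sub ?_, ?_⟩
    · have := ha.mul (hc j)
      rwa [add_zero] at this
    · rw [Matrix.sub_vecMul, Matrix.smul_vecMul]
  have step : ∀ i, ∃ u ∈ L, (∀ j, u j ≠ 0 → lab j ≤ lab i) ∧ u i ≠ 0 ∧
      ∀ v ∈ L, (∀ j, v j ≠ 0 → lab j ≤ lab i) → Ge P (P.ord (u i)) (v i) := by
    intro i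
    obtain ⟨b, hb⟩ := exists_bound P (fun x : Fin n × Fin n => M x.1 x.2)
    obtain ⟨z, ⟨u, hu, hu1, hu2, hu3⟩, hz⟩ := Int.exists_least_of_bdd
      (P := fun z => ∃ v ∈ L, (∀ j, v j ≠ 0 → lab j ≤ lab i) ∧ v i ≠ 0 ∧ P.ord (v i) = z) (by
        refine ⟨b, ?_⟩
        rintro z ⟨v, hv, -, hvi, rfl⟩
        rw [hL] at hv
        obtain ⟨c, hc, rfl⟩ := hv
        have h1 : Ge P b (∑ j, c j * M j i) := Ge.sum _ fun j _ => by
          have := (hc j).mul (hb (j, i))
          rwa [zero_add] at this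
        exact (ge_iff (P := P) hvi).1 h1) (by
        obtain ⟨t, ht0, ht⟩ := P.surj
        obtain ⟨n0, hn0⟩ := exists_bound P (fun j => M⁻¹ i j)
        have h1 : Matrix.vecMul (t ^ (-n0) • M⁻¹ i) M = t ^ (-n0) • (Pi.single i 1 : Fin n → K) := by
          rw [Matrix.smul_vecMul]
          congr 1
          have h2 : Matrix.vecMul (M⁻¹ i) M = (M⁻¹ * M) i := rfl
          rw [h2, Matrix.nonsing_inv_mul _ (isUnit_iff_ne_zero.2 hM)]
          funext j
          rw [Matrix.one_apply, Pi.single_apply]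
          exact if_congr eq_comm rfl rfl
        refine ⟨_, Matrix.vecMul (t ^ (-n0) • M⁻¹ i) M, ?_, ?_, ?_, rfl⟩
        · rw [hL]
          refine ⟨_, fun j => ?_, rfl⟩
          have := (ge_zpow ht (-n0)).mul (hn0 j)
          rwa [neg_add_cancel] at this
        · rw [h1]
          intro j hj
          by_cases hji : j = i
          · rw [hji]
          · exact absurd (by rw [Pi.smul_apply, Pi.single_eq_of_ne hji, smul_zero]) hj
        · rw [h1, Pi.smul_apply, Pi.single_eq_same, smul_eq_mul, mul_one]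
          exact zpow_ne_zero _ ht0)
    refine ⟨u, hu, hu1, hu2, fun v hv hv1 => ?_⟩
    by_cases hvi : v i = 0
    · rw [hvi]
      exact ge_zero
    · rw [ge_iff hvi, hu3]
      exact hz _ ⟨v, hv, hv1, hvi, rfl⟩
  choose u hu hu1 hu2 hu3 using step
  have key : ∀ T : ℕ, ∀ v ∈ L, (∀ j, v j ≠ 0 → lab j < T) →
      ∃ x : Fin n → K, (∀ j, Ge P 0 (x j)) ∧ v = Matrix.vecMul x (Matrix.of u) := by
    intro T
    induction T with
    | zero =>
      intro v _ hv
      refine ⟨0, fun j => ge_zero, ?_⟩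
      rw [Matrix.zero_vecMul]
      funext j
      by_contra hne
      exact absurd (hv j hne) (Nat.not_lt_zero _)
    | succ T ih =>
      intro v hv hvT
      by_cases hi : ∃ i, lab i = T
      · obtain ⟨i, hi⟩ := hi
        have h1 := hu3 i v hv fun j hj => by
          have := hvT j hj
          omega
        obtain ⟨a, ha⟩ : ∃ a : K, v i = a * u i i := ⟨v i / u i i, (div_mul_cancel₀ _ (hu2 i)).symm⟩
        have ha0 : Ge P 0 a := by
          refine Ge.of_mul (a := u i i) (hu2 i) ?_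
          rw [add_zero, mul_comm, ← ha]
          exact h1
        obtain ⟨x, hx, hxe⟩ := ih (v - a • u i) (hLsub _ (hu i) _ hv _ ha0) (by
          intro j hj
          by_cases hji : j = i
          · exfalso
            apply hj
            rw [hji, Pi.sub_apply, Pi.smul_apply, smul_eq_mul, ha, sub_self]
          · have h2 : lab j < T + 1 := by
              by_cases hvj : v j = 0
              · have h3 : u i j ≠ 0 := by
                  intro h0
                  apply hj
                  rw [Pi.sub_apply, Pi.smul_apply, h0, hvj, smul_zero, sub_zero]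
                have := hu1 i j h3
                omega
              · exact hvT j hvj
            have h4 : lab j ≠ T := fun h => hji (hlab (by rw [h, hi]))
            omega)
        refine ⟨x + a • Pi.single i 1, fun j => (hx j).add ?_, ?_⟩
        · rw [Pi.smul_apply, smul_eq_mul, Pi.single_apply]
          split_ifs
          · rwa [mul_one]
          · rw [mul_zero]
            exact ge_zero
        · rw [Matrix.add_vecMul, ← hxe, Matrix.smul_vecMul, Matrix.single_one_vecMul]
          funext j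
          simp [Matrix.row]
      · push Not at hi
        refine ih v hv fun j hj => ?_
        have h1 := hvT j hj
        have h2 := hi j
        omega
  choose U hU hUe using fun i => (by
    have := hu i
    rw [hL] at this
    exact this : ∃ c : Fin n → K, (∀ j, Ge P 0 (c j)) ∧ u i = Matrix.vecMul c M)
  have hrow : ∀ i, M i ∈ L := by
    intro i
    rw [hL]
    refine ⟨Pi.single i 1, fun j => ?_, ?_⟩
    · rw [Pi.single_apply]
      split_ifs
      · exact ge_one
      · exact ge_zero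
    · rw [Matrix.single_one_vecMul]
      rfl
  choose X hX hXe using fun i => key (Finset.univ.sup lab + 1) (M i) (hrow i) fun j _ =>
    Nat.lt_succ_of_le (Finset.le_sup (Finset.mem_univ j))
  refine ⟨Matrix.of u, Matrix.of U, Matrix.of X, fun i j => hU i j, fun i j => hX i j, ?_, ?_,
    fun i j h => hu1 i j h⟩
  · ext i j
    exact congrFun (hUe i) j
  · ext i j
    exact congrFun (hXe i) j

theorem det_mul_expand {R : Type*} [CommRing R] {r ρ : ℕ} (Y : Matrix (Fin ρ) (Fin r) R)
    (N : Matrix (Fin r) (Fin ρ) R) :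
    (Y * N).det = ∑ S : Fin ρ → Fin r, (∏ i, Y i (S i)) * (N.submatrix S id).det := by
  classical
  have h1 := (Matrix.detRowAlternating (n := Fin ρ) (R := R)).toMultilinearMap.map_sum
    (fun (i : Fin ρ) (j : Fin r) => Y i j • N j)
  have h2 : (fun i : Fin ρ => ∑ j : Fin r, Y i j • N j) = (Y * N : Matrix (Fin ρ) (Fin ρ) R) := by
    funext i l
    rw [Finset.sum_apply, Matrix.mul_apply]
    rfl
  rw [h2] at h1
  have h3 : (Y * N).det = _ := h1
  rw [h3]
  refine Finset.sum_congr rfl fun S _ => ?_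
  exact (Matrix.detRowAlternating (n := Fin ρ) (R := R)).toMultilinearMap.map_smul_univ
    (fun i : Fin ρ => Y i (S i)) (fun i => N (S i))

theorem exists_minor {r ρ : ℕ} (E : Bundle K r) {Λ : Matrix (Fin r) (Fin ρ) K}
    {Y : Matrix (Fin ρ) (Fin r) K} (hY : Y * Λ = 1) (P : Place ℂ K) :
    ∃ S : Fin ρ → Fin r, ((E.B P * Λ).submatrix S id).det ≠ 0 := by
  by_contra hcon
  push Not at hcon
  have h1 : (Y * (E.B P)⁻¹) * (E.B P * Λ) = 1 := by
    rw [Matrix.mul_assoc, ← Matrix.mul_assoc (E.B P)⁻¹,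
      Matrix.nonsing_inv_mul _ (isUnit_iff_ne_zero.2 (E.det_ne P)), Matrix.one_mul, hY]
  have h2 := det_mul_expand (Y * (E.B P)⁻¹) (E.B P * Λ)
  rw [h1, Matrix.det_one, Finset.sum_eq_zero fun S _ => by rw [hcon S, mul_zero]] at h2
  exact one_ne_zero h2

theorem exists_quot [IsFF ℂ K] {r ρ : ℕ} (E : Bundle K r) {Λ : Matrix (Fin r) (Fin ρ) K}
    {Y : Matrix (Fin ρ) (Fin r) K} (hY : Y * Λ = 1) : ∃ d, IsQuot E Λ d := by
  classical
  have h1 : ∀ P, ∃ S : Fin ρ → Fin r, ((E.B P * Λ).submatrix S id).det ≠ 0 ∧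
      ∀ S' : Fin ρ → Fin r, ((E.B P * Λ).submatrix S' id).det ≠ 0 →
        P.ord ((E.B P * Λ).submatrix S id).det ≤ P.ord ((E.B P * Λ).submatrix S' id).det := by
    intro P
    obtain ⟨S0, hS0⟩ := exists_minor E hY P
    obtain ⟨S, hS, hmin⟩ := Finset.exists_min_image
      (Finset.univ.filter fun S : Fin ρ → Fin r => ((E.B P * Λ).submatrix S id).det ≠ 0)
      (fun S => P.ord ((E.B P * Λ).submatrix S id).det) ⟨S0, by simpa using hS0⟩
    exact ⟨S, (Finset.mem_filter.1 hS).2, fun S' hS' => hmin S' (by simpa using hS')⟩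
  choose S hS hmin using h1
  have hfin : {P : Place ℂ K | P.ord ((E.B P * Λ).submatrix (S P) id).det ≠ 0}.Finite := by
    refine (E.fin.union (Set.finite_iUnion fun S : Fin ρ → Fin r =>
      finite_support (k := ℂ) (Λ.submatrix S id).det)).subset fun P hP => ?_
    by_cases hB : E.B P = 1
    · right
      rw [Set.mem_iUnion]
      refine ⟨S P, ?_⟩
      rw [Set.mem_ofPred_eq, hB, Matrix.one_mul] at hP
      exact hP
    · exact Or.inl hB
  refine ⟨-Finsupp.ofSupportFinite _ hfin, fun P => ⟨fun S' => ?_, S P, hS P, ?_⟩⟩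
  · have h2 : -(-Finsupp.ofSupportFinite _ hfin : Place ℂ K →₀ ℤ) P =
      P.ord ((E.B P * Λ).submatrix (S P) id).det := by
      rw [Finsupp.neg_apply, neg_neg]
      rfl
    rw [h2]
    by_cases h0 : ((E.B P * Λ).submatrix S' id).det = 0
    · exact Or.inl h0
    · exact Or.inr (hmin P S' h0)
  · rw [Finsupp.neg_apply, neg_neg]
    rfl

end Pool.Agent.Helper9.FJ
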